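import Pool.Agent.H13.IU.Bis

/-!
# Exclusion tests
-/

namespace Pool.Agent.H13.IU

open Pool.Agent.H15.IA

/-- `θ (1 + x) < π / 2` fails -/
def exB1 (a _b c : Nat) : Bool :=
  Nat.ble 1811004865522958336
    (Nat.mul (Nat.sub a 68719476736) (Nat.add 1073741824 (Nat.sub c 68719476736)))

/-- `θ (1 + 2 y) < (π / 2) (1 + y)` fails -/
def exB2 (a _b c : Nat) : Bool :=
  Nat.ble (Nat.mul (Nat.add 1073741824 (Nat.sub c 68719476736)) 1686629714)
    (Nat.mul (Nat.sub a 68719476736) (Nat.add 1073741824 (Nat.mul 2 (Nat.sub c 68719476736))))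

/-- `θ x ≤ (5 / 2) (θ - 24 / 25)` fails -/
def exA3 (a b c : Nat) : Bool :=
  Nat.ble (Nat.succ (Nat.mul 5368709120 (Nat.sub b 69750268887)))
    (Nat.mul 2 (Nat.mul (Nat.sub a 68719476736) (Nat.sub c 68719476736)))

end Pool.Agent.H13.IU
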