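import Pool.Agent.H13.IU.Red

/-!
# Closed forms of `A0` and `cw`

`P = N sin B sin β cos β`, `V = c D - K sin b sin^2 B sin β cos β`, `D = De B β`:
`cw = K V / P`, `L = K D / P`, `G = K N sin B / P`, `A0 = S0 + cw^2 / L`.
-/

namespace Pool.Agent.H13.IU

open Pool.Agent.H12.PR

private theorem red2_cw {c B sB cB sb cb s1 K N : ℝ} (hN : N ≠ 0)
    (hsB : sB ≠ 0) (hsb : sb ≠ 0) (hcb : cb ≠ 0) (hNe : N = sB - B * cB)
    (hB : sB ^ 2 + cB ^ 2 = 1) :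
    (c * (K / (sb * cb) + K * (B - sB * cB) / (N * sB)) - K ^ 2 * sB * s1 / N) *
      ((N * sB) * (sb * cb)) =
    K * ((c * ((N * sB) + ((sb * cb) * (B - sB * cB)))) - (((K * s1) * (sB * sB)) * (sb * cb))) := by
  field_simp

private theorem red2_A {θ s c B sB cB sb cb s1 K N D : ℝ} (hN : N ≠ 0) (hD : D ≠ 0)
    (hsB : sB ≠ 0) (hsb : sb ≠ 0) (hcb : cb ≠ 0) (hNe : N = sB - B * cB)
    (hDe : D = (N * sB) + ((sb * cb) * (B - sB * cB)))
    (hB : sB ^ 2 + cB ^ 2 = 1) (hb : sb ^ 2 + cb ^ 2 = 1) :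
    (K ^ 2 * (θ + s * c) - (θ - s * c) - K * c ^ 2 * (sb / cb) +
      K / N * (B * sB * c ^ 2 - 2 * K * sB * c * s1 + K ^ 2 * cB * s1 ^ 2)) *
        (D * ((N * sB) * (sb * cb))) =
    ((K ^ 2 * (θ + s * c) - (θ - s * c) + K * c ^ 2 * (cB / sB - 2 * (sb / cb) - cb / sb) -
      K ^ 3 * s1 ^ 2 * ((sb * cb - sB * cB) / D)) * D) * ((N * sB) * (sb * cb)) +
    K * ((c * D) - (((K * s1) * (sB * sB)) * (sb * cb))) ^ 2 := by
  -- difference, multiplied by `P D / K`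
  have e1 : (c ^ 2 * (sb / cb + cb / sb)) = c ^ 2 / (sb * cb) := by
    field_simp
    linear_combination c ^ 2 * hb
  have e2 : c ^ 2 * (B * sB / N - cB / sB) = c ^ 2 * ((B - sB * cB) / (N * sB)) := by
    rw [hNe] at hN ⊢
    field_simp
    linear_combination c ^ 2 * B * hB
  have e3 : cB / N + (sb * cb - sB * cB) / D = (sb * cb) * sB ^ 3 / (N * D) := by
    field_simp
    rw [hDe, hNe]
    linear_combination (-(sb * cb * sB)) * hB
  have key : (K ^ 2 * (θ + s * c) - (θ - s * c) - K * c ^ 2 * (sb / cb) +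
      K / N * (B * sB * c ^ 2 - 2 * K * sB * c * s1 + K ^ 2 * cB * s1 ^ 2)) -
      (K ^ 2 * (θ + s * c) - (θ - s * c) + K * c ^ 2 * (cB / sB - 2 * (sb / cb) - cb / sb) -
      K ^ 3 * s1 ^ 2 * ((sb * cb - sB * cB) / D)) =
      K * (c ^ 2 / (sb * cb) + c ^ 2 * ((B - sB * cB) / (N * sB)) - 2 * K * s1 * c * sB / N +
        K ^ 2 * s1 ^ 2 * ((sb * cb) * sB ^ 3 / (N * D))) := by
    rw [← e1, ← e2, ← e3]
    ring
  have key2 : K * (c ^ 2 / (sb * cb) + c ^ 2 * ((B - sB * cB) / (N * sB)) -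
      2 * K * s1 * c * sB / N + K ^ 2 * s1 ^ 2 * ((sb * cb) * sB ^ 3 / (N * D))) *
      (D * ((N * sB) * (sb * cb))) =
      K * ((c * D) - (((K * s1) * (sB * sB)) * (sb * cb))) ^ 2 := by
    have e4 : c ^ 2 / (sb * cb) + c ^ 2 * ((B - sB * cB) / (N * sB)) =
        c ^ 2 * D / ((N * sB) * (sb * cb)) := by
      rw [hDe]
      field_simp
    rw [e4]
    field_simp
    ring
  have e5 := congrArg (fun t => t * (D * ((N * sB) * (sb * cb)))) key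
  beta_reduce at e5
  rw [key2] at e5
  linear_combination e5

theorem red_cw {θ b K B β : ℝ} (hKb : K * b = B) (hKβ : K * (2 * θ - b) = β)
    (hN : Nf B ≠ 0) (hsB : Real.sin B ≠ 0) (hsb : Real.sin β ≠ 0) (hcb : Real.cos β ≠ 0) :
    cw θ b K * ((Nf B * Real.sin B) * (Real.sin β * Real.cos β)) =
      K * ((Real.cos θ * De B β) - (((K * Real.sin b) * (Real.sin B * Real.sin B)) *
        (Real.sin β * Real.cos β))) := by
  unfold cw Lf
  rw [hKb, hKβ]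
  exact red2_cw hN hsB hsb hcb rfl (Real.sin_sq_add_cos_sq B)

theorem red_A {θ b K B β : ℝ} (hKb : K * b = B) (hKβ : K * (2 * θ - b) = β)
    (hN : Nf B ≠ 0) (hD : De B β ≠ 0) (hsB : Real.sin B ≠ 0) (hsb : Real.sin β ≠ 0)
    (hcb : Real.cos β ≠ 0) :
    A0 θ b K * (De B β * ((Nf B * Real.sin B) * (Real.sin β * Real.cos β))) =
      (S0 θ b K * De B β) * ((Nf B * Real.sin B) * (Real.sin β * Real.cos β)) +
      K * ((Real.cos θ * De B β) - (((K * Real.sin b) * (Real.sin B * Real.sin B)) *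
        (Real.sin β * Real.cos β))) ^ 2 := by
  have h := red2_A (θ := θ) (s := Real.sin θ) (c := Real.cos θ) (K := K) (s1 := Real.sin b) hN hD
    hsB hsb hcb rfl rfl (Real.sin_sq_add_cos_sq B) (Real.sin_sq_add_cos_sq β)
  unfold A0 S0 Rf
  rw [hKb, hKβ]
  exact h

theorem fin_0 {A1 cw G c K P D NS V v x μ : ℝ} (hK : 0 < K) (hP : 0 < P) (hD : 0 < D)
    (hc : 0 < c) (hA : A1 * (D * P) = x ^ 2 * μ) (hcw : cw * P = K * V) (hV : V = v * x)
    (hG : G * P = K * NS) (ht : 0 ≤ μ * (2 * NS - 2 * V * c⁻¹) - 16 / 25 * (K * v ^ 2) * D) :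
    16 / 25 * cw ^ 2 ≤ A1 * (2 * G - 2 * cw / c) := by
  have hm : 0 < D * P ^ 2 := by positivity
  have e1 : (A1 * (2 * G - 2 * cw / c)) * (D * P ^ 2) =
      (A1 * (D * P)) * (2 * (G * P) - 2 * (cw * P) * c⁻¹) := by
    field_simp
  have e2 : (16 / 25 * cw ^ 2) * (D * P ^ 2) = 16 / 25 * (cw * P) ^ 2 * D := by ring
  rw [← mul_le_mul_iff_left₀ hm, e1, e2, hA, hcw, hG]
  have e3 : x ^ 2 * μ * (2 * (K * NS) - 2 * (K * V) * c⁻¹) - 16 / 25 * (K * V) ^ 2 * D =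
      x ^ 2 * K * (μ * (2 * NS - 2 * V * c⁻¹) - 16 / 25 * (K * v ^ 2) * D) := by
    have : (K * V) ^ 2 = x ^ 2 * K * (K * v ^ 2) := by rw [hV]; ring
    rw [this]
    ring
  have e4 : 0 ≤ x ^ 2 * K * (μ * (2 * NS - 2 * V * c⁻¹) - 16 / 25 * (K * v ^ 2) * D) :=
    mul_nonneg (by positivity) ht
  linarith

theorem fin_1 {A1 cw G L c K P D NS V v x μ : ℝ} (hK : 0 < K) (hP : 0 < P) (hD : 0 < D)
    (hc : 0 < c) (hA : A1 * (D * P) = x ^ 2 * μ) (hcw : cw * P = K * V) (hV : V = v * x)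
    (hG : G * P = K * NS) (hL : L * P = K * D)
    (ht : 0 ≤ μ * (16 / 25 * D + (18 / 25 * NS - 2 * V * c⁻¹)) - 16 / 25 * (K * v ^ 2) * D) :
    16 / 25 * cw ^ 2 ≤ A1 * (16 / 25 * L + 18 / 25 * G - 2 * cw / c) := by
  have hm : 0 < D * P ^ 2 := by positivity
  have e1 : (A1 * (16 / 25 * L + 18 / 25 * G - 2 * cw / c)) * (D * P ^ 2) =
      (A1 * (D * P)) * (16 / 25 * (L * P) + 18 / 25 * (G * P) - 2 * (cw * P) * c⁻¹) := by
    field_simp
  have e2 : (16 / 25 * cw ^ 2) * (D * P ^ 2) = 16 / 25 * (cw * P) ^ 2 * D := by ring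
  rw [← mul_le_mul_iff_left₀ hm, e1, e2, hA, hcw, hG, hL]
  have e3 : x ^ 2 * μ * (16 / 25 * (K * D) + 18 / 25 * (K * NS) - 2 * (K * V) * c⁻¹) -
      16 / 25 * (K * V) ^ 2 * D =
      x ^ 2 * K * (μ * (16 / 25 * D + (18 / 25 * NS - 2 * V * c⁻¹)) -
        16 / 25 * (K * v ^ 2) * D) := by
    have : (K * V) ^ 2 = x ^ 2 * K * (K * v ^ 2) := by rw [hV]; ring
    rw [this]
    ring
  have e4 : 0 ≤ x ^ 2 * K * (μ * (16 / 25 * D + (18 / 25 * NS - 2 * V * c⁻¹)) -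
      16 / 25 * (K * v ^ 2) * D) := mul_nonneg (by positivity) ht
  linarith

theorem exact_V {θ : ℝ} :
    (((Real.cos θ) * ((((Real.sin (θ + 0)) - ((θ + 0) * (Real.cos (θ + 0)))) * (Real.sin (θ + 0))) +
      (((Real.sin (θ - 0)) * (Real.cos (θ - 0))) * ((θ + 0) - ((Real.sin (θ + 0)) *
      (Real.cos (θ + 0))))))) - (((1 * (Real.sin θ)) * ((Real.sin (θ + 0)) *
      (Real.sin (θ + 0)))) * ((Real.sin (θ - 0)) * (Real.cos (θ - 0))))) = 0 := by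
  have e : (((Real.sin θ) - (θ * (Real.cos θ))) * (Real.sin θ)) + (((Real.sin θ) * (Real.cos θ)) *
      (θ - ((Real.sin θ) * (Real.cos θ)))) = Real.sin θ ^ 4 := De_zero θ
  simp only [add_zero, sub_zero, one_mul]
  rw [e]
  ring

end Pool.Agent.H13.IU
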