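import Pool.Agent.H13.IU.A3k
import Pool.Agent.H13.IU.A3l
import Pool.Agent.H13.IU.Red2

/-!
# Fact A3: from the computation to the statement
-/

namespace Pool.Agent.H13.IU

open Pool.Agent.H15.IA Pool.Agent.H12.PR

/-- the statement proved by the computation -/
private def QA3 (θ x : ℝ) : Prop :=
  49 / 50 ≤ θ → θ ≤ 21 / 20 → 0 < x → θ * x ≤ 5 / 2 * (θ - 24 / 25) →
    Sp θ (θ + θ * x) (1 + 1 / 4 * x)

private theorem A3_real {θ x B β K b g1 g2 g3 NS scb D V g j v z1 z2 z3 : ℝ}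
    (h0 : 49 / 50 ≤ θ) (h1 : θ ≤ 21 / 20) (h2 : 0 < x) (h3 : θ * x ≤ 5 / 2 * (θ - 24 / 25))
    (hK : K = 1 + 1 / 4 * x) (hg1 : g1 = θ * (5 / 4 + 1 / 4 * x))
    (hg2 : g2 = θ * (3 / 4 + 1 / 4 * x)) (hg3 : g3 = 2 * θ * K) (hb : b = θ + θ * x)
    (hB : B = θ + g1 * x) (hβ : β = θ - g2 * x)
    (hNS : NS = (Real.sin B - B * Real.cos B) * Real.sin B)
    (hscb : scb = Real.sin β * Real.cos β)
    (hDD : D = NS + scb * (B - Real.sin B * Real.cos B))
    (hVV : V = Real.cos θ * D - ((K * Real.sin b) * (Real.sin B * Real.sin B)) * scb)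
    (hz1 : z1 = 0) (hz2 : z2 = 0) (hz3 : z3 = 0)
    (hR : ((1 / 2 * θ + (2 * Real.cos θ) * ((K * (Real.cos β)⁻¹) * (g2 * Sc (g2 * x)))) -
      (g3 * Sc (g3 * x)) * ((Real.cos θ * Real.cos θ) * ((K * (Real.sin B)⁻¹) *
      (Real.sin β)⁻¹))) * D + (g3 * Sc (g3 * x)) * (((K * Real.sin b) * (K * Real.sin b)) *
      (K * Real.cos (B + β))) = z1 + g * x)
    (hQ : 1 / 2 * θ + Real.sin θ * (K * ((g2 * Sc (g2 * x)) * (Real.sin β)⁻¹ -
      (g1 * Sc (g1 * x)) * (Real.sin B)⁻¹)) = z2 + j * x)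
    (hV : V = z3 + v * x)
    (t0 : 0 ≤ ((1 / 16 * (θ + Real.sin θ * Real.cos θ)) * D + g) * (NS * scb) + K * v ^ 2)
    (t1 : 0 ≤ 1 / 16 * (θ - Real.sin θ * Real.cos θ) + j)
    (t2 : 0 ≤ v)
    (t3 : 0 < Real.cos θ * NS - V)
    (t4 : 0 ≤ ((((1 / 16 * (θ + Real.sin θ * Real.cos θ)) * D + g) +
      ((16 / 25 * (Real.cos θ * (Real.sin θ)⁻¹) ^ 2) *
        (1 / 16 * (θ - Real.sin θ * Real.cos θ) + j)) * D) * (NS * scb)) *
      (2 * NS - (2 * V) * (Real.cos θ)⁻¹) +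
      (K * v ^ 2) * ((2 * NS - (2 * V) * (Real.cos θ)⁻¹) - 16 / 25 * D))
    (t5 : 0 ≤ ((((1 / 16 * (θ + Real.sin θ * Real.cos θ)) * D + g) +
      ((16 / 25 * (Real.cos θ * (Real.sin θ)⁻¹) ^ 2) *
        (1 / 16 * (θ - Real.sin θ * Real.cos θ) + j)) * D) * (NS * scb)) *
      (16 / 25 * D + (18 / 25 * NS - (2 * V) * (Real.cos θ)⁻¹)) +
      (K * v ^ 2) * (18 / 25 * NS - (2 * V) * (Real.cos θ)⁻¹)) :
    Sp θ b K := by
  have hpi := Real.pi_gt_d20
  have hθ2 : θ < Real.pi / 2 := by linarith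
  have hs : 0 < Real.sin θ := Real.sin_pos_of_pos_of_lt_pi (by linarith) (by linarith)
  have hc : 0 < Real.cos θ := Real.cos_pos_of_mem_Ioo ⟨by linarith, hθ2⟩
  have hx4 : x ≤ 1 / 4 := by
    by_contra h5
    push Not at h5
    have h6 : 49 / 50 * x ≤ θ * x := mul_le_mul_of_nonneg_right h0 h2.le
    linarith
  have hBe : B = θ * ((1 + x) * (1 + 1 / 4 * x)) := by rw [hB, hg1]; ring
  have hB0 : 0 < B := by rw [hBe]; positivity
  have hBpi : B < Real.pi := by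
    rw [hBe]
    have h6 : (1 + x) * (1 + 1 / 4 * x) ≤ (1 + 1 / 4) * (1 + 1 / 4 * (1 / 4)) :=
      mul_le_mul (by linarith) (by linarith) (by positivity) (by norm_num)
    have h7 : θ * ((1 + x) * (1 + 1 / 4 * x)) ≤ 21 / 20 * ((1 + 1 / 4) * (1 + 1 / 4 * (1 / 4))) :=
      mul_le_mul h1 h6 (by positivity) (by norm_num)
    linarith
  have hβe : β = θ * ((1 - x) * (1 + 1 / 4 * x)) := by rw [hβ, hg2]; ring
  have hβ0 : 0 < β := by
    rw [hβe]
    exact mul_pos (by linarith) (mul_pos (by linarith) (by positivity))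
  have hβ1 : β < Real.pi / 2 := by
    have h6 : 0 < g2 * x := by rw [hg2]; positivity
    linarith
  have hsB : 0 < Real.sin B := Real.sin_pos_of_pos_of_lt_pi hB0 hBpi
  have hsb : 0 < Real.sin β := Real.sin_pos_of_pos_of_lt_pi hβ0 (by linarith)
  have hcb : 0 < Real.cos β := Real.cos_pos_of_mem_Ioo ⟨by linarith, hβ1⟩
  have hN : 0 < Nf B := n_pos hB0 hBpi
  have hKb : K * b = B := by rw [hBe, hK, hb]; ring
  have hKβ : K * (2 * θ - b) = β := by rw [hβe, hK, hb]; ring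
  have hNS' : NS = Nf B * Real.sin B := hNS
  have hDe : De B β = D := by rw [hDD, hNS, hscb]; rfl
  have hNS0 : 0 < NS := by rw [hNS']; positivity
  have hscb0 : 0 < scb := by rw [hscb]; positivity
  have hD : 0 < D := by
    rw [hDD]
    have := mul_pos hscb0 (bs_pos hB0)
    linarith
  have rS := red_S (θ := θ) (b := b) (x := x) (k := 1 / 4) (g1 := g1) (g2 := g2)
    (t2k := 1 / 2 * θ) hK hB hβ (by rw [hg1, hg2, hK]; ring) (by ring) hKb hKβ
    hc.ne' hsB.ne' hsb.ne' hcb.ne' (by rw [hDe]; exact hD.ne')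
  have rD := red_D (θ := θ) (b := b) (x := x) (k := 1 / 4) (g1 := g1) (g2 := g2)
    (t2k := 1 / 2 * θ) hK hB hβ (by ring) hKb hKβ hs.ne' hsB.ne' hsb.ne'
  have rC := red_cw (θ := θ) hKb hKβ hN.ne' hsB.ne' hsb.ne' hcb.ne'
  have rA := red_A (θ := θ) hKb hKβ hN.ne' (by rw [hDe]; exact hD.ne') hsB.ne' hsb.ne' hcb.ne'
  rw [hDe] at rS rC rA
  rw [← hg3] at rS
  rw [← hNS', ← hscb] at rC rA
  rw [← hVV] at rC rA
  rw [hR, hz1, zero_add] at rS
  rw [hQ, hz2, zero_add] at rD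
  rw [hz3, zero_add] at hV
  have hP : 0 < NS * scb := by positivity
  have hK0 : 0 < K := by rw [hK]; positivity
  have hx2 : 0 < x ^ 2 := by positivity
  have hDP := mul_pos hD hP
  rw [rS] at rA
  have hG : Gf K β * (NS * scb) = K * NS := by
    rw [hscb]
    unfold Gf
    field_simp
  have hL : Lf K B β * (NS * scb) = K * D := by
    rw [hDD, hscb, hNS']
    unfold Lf
    field_simp
  clear hR hQ hDD hVV hNS hNS' hscb hB hβ hBe hβe hDe hg1 hg2 hg3
  have e3 : Real.cos θ / Real.sin θ = Real.cos θ * (Real.sin θ)⁻¹ := div_eq_mul_inv _ _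
  have hA1 : A1 θ b K * (D * (NS * scb)) = x ^ 2 *
      ((((1 / 16 * (θ + Real.sin θ * Real.cos θ)) * D + g) +
      ((16 / 25 * (Real.cos θ * (Real.sin θ)⁻¹) ^ 2) *
        (1 / 16 * (θ - Real.sin θ * Real.cos θ) + j)) * D) * (NS * scb) + K * v ^ 2) := by
    unfold A1
    rw [add_mul, rA, rD, e3, hV]
    ring
  refine ⟨?_, ?_, ?_, ?_, ?_, ?_⟩
  · refine nonneg_of_mul_nonneg_left ?_ hDP
    rw [rA, hV]
    have := mul_nonneg hx2.le t0
    linarith
  · rw [rD]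
    have := mul_nonneg hx2.le t1
    linarith
  · refine nonneg_of_mul_nonneg_left ?_ hP
    rw [rC, hV]
    positivity
  · rw [hKβ]
    refine lt_of_mul_lt_mul_right ?_ hP.le
    rw [rC, mul_assoc, hG]
    have := mul_pos hK0 t3
    linarith
  · rw [hKβ]
    refine fin_0 hK0 hP hD hc hA1 rC hV hG ?_
    refine t4.trans (le_of_eq ?_)
    ring
  · rw [hKβ, hKb]
    refine fin_1 hK0 hP hD hc hA1 rC hV hG hL ?_
    refine t5.trans (le_of_eq ?_)
    ring

private theorem fA3_box (A X : Iv) (h : a3P A X = true) (θ x : ℝ) (hθ : A.mem θ) (hx : X.mem x) :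
    QA3 θ x := by
  intro h0 h1 h2 h3
  obtain ⟨g, j, v, hR, hQ, hV, t0, t1, t2, t3, t4, t5⟩ := a3P_sound hθ hx h
  have hpi := Real.pi_gt_d20
  have hs : Real.sin θ ≠ 0 := (Real.sin_pos_of_pos_of_lt_pi (by linarith) (by linarith)).ne'
  have hc : Real.cos θ ≠ 0 := (Real.cos_pos_of_mem_Ioo ⟨by linarith, by linarith⟩).ne'
  exact A3_real h0 h1 h2 h3 rfl rfl rfl rfl rfl rfl rfl rfl rfl rfl rfl
    (exact_R (by ring) hs hc) (exact_Q (by ring) hs) exact_V hR hQ hV t0 t1 t2 t3 t4 t5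

private theorem ex_real {A C b θ x : ℝ}
    (h6 : 5368709120 * (b - 69750268887) + 1 ≤ 2 * (A * C)) (hA : A ≤ θ * 1073741824)
    (hC : C ≤ x * 1073741824) (hC0 : 0 ≤ C) (hb : θ * 1073741824 + 68719476736 ≤ b)
    (h0 : 49 / 50 ≤ θ) (h4 : θ * x ≤ 5 / 2 * (θ - 24 / 25)) : False := by
  have h8 : A * C ≤ (θ * 1073741824) * (x * 1073741824) :=
    mul_le_mul hA hC hC0 (by positivity)
  linarith

private theorem fA3_ex (a b c : Nat) (h : exA3 a b c = true) (θ x : ℝ) (hθ : Iv.mem ⟨a, b⟩ θ)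
    (hx : (c : ℝ) ≤ x * 1073741824 + 68719476736) : QA3 θ x := by
  intro h0 h1 h2 h3
  exfalso
  unfold exA3 at h
  have h5 := ble_true h
  have h6 := (Nat.cast_le (α := ℝ)).2 h5
  rw [mul_cast, mul_cast, succ_cast, mul_cast] at h6
  have hC : ((Nat.sub c 68719476736 : Nat) : ℝ) ≤ x * 1073741824 :=
    sub_le_real (by positivity) (by rw [Nat.cast_ofNat]; linarith)
  have hA : ((Nat.sub a 68719476736 : Nat) : ℝ) ≤ θ * 1073741824 :=
    sub_le_real (by positivity) (by have := hθ.1; rw [Nat.cast_ofNat]; dsimp only at this; linarith)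
  have hC0 : (0 : ℝ) ≤ ((Nat.sub c 68719476736 : Nat) : ℝ) := Nat.cast_nonneg _
  have hb := hθ.2
  have hb2 := sub_cast_ge b 69750268887
  simp only [Nat.cast_ofNat] at h6 hb2
  dsimp only at hb
  refine ex_real (b := b) (le_trans ?_ h6) hA hC hC0 hb h0 h3
  linarith

/-- **Fact A3** -/
theorem factA3 {θ b : ℝ} (h0 : 49 / 50 ≤ θ) (h1 : θ ≤ 21 / 20) (h2 : θ < b)
    (h3 : b - θ ≤ 5 / 2 * (θ - 24 / 25)) : Sp θ b (1 + (b - θ) / (4 * θ)) := by
  have hθ : 0 < θ := by linarith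
  set x := (b - θ) / θ with hx
  have hx0 : 0 < x := div_pos (by linarith) hθ
  have hxd : x * θ = b - θ := div_mul_cancel₀ _ hθ.ne'
  have hx1 : x ≤ 3 / 14 := by
    rw [hx, div_le_iff₀ hθ]
    linarith
  have hK : 1 + (b - θ) / (4 * θ) = 1 + 1 / 4 * x := by
    rw [hx]
    field_simp
  have hb : θ + θ * x = b := by linarith
  rw [hK]
  have hQ : QA3 θ x := by
    rcases le_total (θ * 1073741824 + 68719476736) 69814693396 with h | h
    · exact bis_sound (Q := QA3) fA3_ex fA3_box _ _ _ _ _ a3k θ x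
        ⟨by push_cast; linarith, by push_cast; linarith⟩
        ⟨by push_cast; linarith, by push_cast; linarith⟩
    · exact bis_sound (Q := QA3) fA3_ex fA3_box _ _ _ _ _ a3l θ x
        ⟨by push_cast; linarith, by push_cast; linarith⟩
        ⟨by push_cast; linarith, by push_cast; linarith⟩
  have := hQ h0 h1 hx0 (by linarith)
  rwa [hb] at this

end Pool.Agent.H13.IU
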