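import Pool.Agent.H13.IU.A3p
import Pool.Agent.H13.IU.Ex

/-!
# Kernel computation
-/

namespace Pool.Agent.H13.IU

set_option maxRecDepth 20000

theorem a3k : bis exA3 a3P 16 69771743723 69814693396 68719476736 68949686984 = true := by
  decide +kernel

end Pool.Agent.H13.IU
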