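import Pool.Agent.H13.IU.Ux

/-!
# Fact A3: the program (generated)

`b1P`: `k = 1/2`, `a3P`: `k = 1/4`, `K = 1 + k x`, `B = θ + x g1`, `β = θ - x g2`,
`g1 = θ (1 + k + k x)`, `g2 = θ (1 - k + k x)`.
-/

namespace Pool.Agent.H13.IU

open Pool.Agent.H15.IA

set_option maxRecDepth 20000

def a3P (th X : Iv) : Bool :=
  sinK th fun s_1 =>
  cosK th fun c_2 =>
  mulK s_1 c_2 fun i_3 =>
  invK s_1 fun i_4 =>
  linU c1 c14 X fun K_5 =>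
  linU c54 c14 X fun u_6 =>
  linU c34 c14 X fun u_7 =>
  cmulU th u_6 fun g_8 =>
  cmulU th u_7 fun g_9 =>
  xmulU g_8 X fun e_10 =>
  xmulU g_9 X fun e_11 =>
  cstU th fun t_12 =>
  addU t_12 e_10 fun B_13 =>
  subU t_12 e_11 fun b_14 =>
  linU th th X fun b_15 =>
  sinU B_13 X fun S_16 =>
  cosU B_13 X fun C_17 =>
  sinU b_14 X fun S_18 =>
  cosU b_14 X fun C_19 =>
  sinU b_15 X fun z_20 =>
  addU B_13 b_14 fun u_21 =>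
  cosU u_21 X fun w_22 =>
  mulU S_16 C_17 fun u_23 =>
  mulU B_13 C_17 fun u_24 =>
  subU S_16 u_24 fun N_25 =>
  subU B_13 u_23 fun u_26 =>
  mulU N_25 S_16 fun u_27 =>
  mulU S_18 C_19 fun u_28 =>
  mulU u_28 u_26 fun u_29 =>
  addU u_27 u_29 fun D_30 =>
  invU S_16 fun u_31 =>
  invU S_18 fun u_32 =>
  invU C_19 fun u_33 =>
  mulK c_2 c_2 fun i_34 =>
  mulU K_5 u_31 fun u_35 =>
  mulU u_35 u_32 fun u_36 =>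
  cmulU i_34 u_36 fun u_37 =>
  mulU K_5 z_20 fun u_38 =>
  mulU u_38 u_38 fun u_39 =>
  mulU K_5 w_22 fun u_40 =>
  mulU u_39 u_40 fun u_41 =>
  scU g_9 X fun u_42 =>
  scU g_8 X fun u_43 =>
  mulU g_9 u_42 fun u_44 =>
  mulU g_8 u_43 fun u_45 =>
  mulU K_5 u_33 fun u_46 =>
  mulU u_46 u_44 fun u_47 =>
  mulK c2 c_2 fun i_48 =>
  cmulU i_48 u_47 fun u_49 =>
  mulK c2 th fun i_50 =>
  cmulU i_50 K_5 fun u_51 =>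
  scU u_51 X fun u_52 =>
  mulU u_51 u_52 fun u_53 =>
  mulK c12 th fun i_54 =>
  cstU i_54 fun u_55 =>
  addU u_55 u_49 fun u_56 =>
  mulU u_53 u_37 fun u_57 =>
  subU u_56 u_57 fun u_58 =>
  mulU u_53 u_41 fun u_59 =>
  mulU u_58 D_30 fun u_60 =>
  addU u_60 u_59 fun R_61 =>
  mulU u_44 u_32 fun u_62 =>
  mulU u_45 u_31 fun u_63 =>
  subU u_62 u_63 fun u_64 =>
  mulU K_5 u_64 fun u_65 =>
  cmulU s_1 u_65 fun u_66 =>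
  addU u_55 u_66 fun Q_67 =>
  addK th i_3 fun i_68 =>
  mulK c116 i_68 fun i_69 =>
  mulK i_69 D_30.r fun i_70 =>
  addK i_70 R_61.d fun i_71 =>
  subK th i_3 fun i_72 =>
  mulK c116 i_72 fun i_73 =>
  addK i_73 Q_67.d fun i_74 =>
  mulK c_2 i_4 fun i_75 =>
  sqK i_75 fun i_76 =>
  mulK cq i_76 fun i_77 =>
  mulK i_77 i_74 fun i_78 =>
  mulK i_78 D_30.r fun i_79 =>
  addK i_71 i_79 fun i_80 =>
  cmulU c_2 D_30 fun u_81 =>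
  mulU S_16 S_16 fun u_82 =>
  mulU u_38 u_82 fun u_83 =>
  mulU u_83 u_28 fun u_84 =>
  subU u_81 u_84 fun V_85 =>
  mulK u_27.r u_28.r fun i_86 =>
  sqK V_85.d fun i_87 =>
  mulK K_5.r i_87 fun i_88 =>
  mulK i_71 i_86 fun i_89 =>
  addK i_89 i_88 fun i_90 =>
  mulK i_80 i_86 fun i_91 =>
  invK c_2 fun i_92 =>
  mulK c2 V_85.r fun i_93 =>
  mulK i_93 i_92 fun i_94 =>
  mulK c2 u_27.r fun i_95 =>
  subK i_95 i_94 fun i_96 =>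
  mulK c18 u_27.r fun i_97 =>
  subK i_97 i_94 fun i_98 =>
  mulK cq D_30.r fun i_99 =>
  mulK i_91 i_96 fun i_100 =>
  subK i_96 i_99 fun i_101 =>
  mulK i_88 i_101 fun i_102 =>
  addK i_100 i_102 fun i_103 =>
  addK i_99 i_98 fun i_104 =>
  mulK i_91 i_104 fun i_105 =>
  mulK i_88 i_98 fun i_106 =>
  addK i_105 i_106 fun i_107 =>
  mulK c_2 u_27.r fun i_108 =>
  subK i_108 V_85.r fun i_109 =>
  br (Nat.ble 68719476736 i_90.lo) (br (Nat.ble 68719476736 i_74.lo) (br (Nat.ble 68719476736 V_85.d.lo) (br (Nat.ble 68719476737 i_109.lo) (br (Nat.ble 68719476736 i_103.lo) (br (Nat.ble 68719476736 i_107.lo) true false) false) false) false) false) false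

theorem a3P_sound {th X : Iv} {θ x : ℝ} (hθ : th.mem θ) (hX : X.mem x)
    (h : a3P th X = true) :
    ∃ g j v : ℝ,
    ((((((1 / 2) * θ) + ((2 * (Real.cos θ)) * (((1 + (1 / 4) * x) * ((Real.cos (θ - ((θ * ((3 / 4) + (1 / 4) * x)) * x)))⁻¹)) * ((θ * ((3 / 4) + (1 / 4) * x)) * (Sc ((θ * ((3 / 4) + (1 / 4) * x)) * x)))))) - ((((2 * θ) * (1 + (1 / 4) * x)) * (Sc (((2 * θ) * (1 + (1 / 4) * x)) * x))) * (((Real.cos θ) * (Real.cos θ)) * (((1 + (1 / 4) * x) * ((Real.sin (θ + ((θ * ((5 / 4) + (1 / 4) * x)) * x)))⁻¹)) * ((Real.sin (θ - ((θ * ((3 / 4) + (1 / 4) * x)) * x)))⁻¹))))) * ((((Real.sin (θ + ((θ * ((5 / 4) + (1 / 4) * x)) * x))) - ((θ + ((θ * ((5 / 4) + (1 / 4) * x)) * x)) * (Real.cos (θ + ((θ * ((5 / 4) + (1 / 4) * x)) * x))))) * (Real.sin (θ + ((θ * ((5 / 4) + (1 / 4) * x)) * x)))) + (((Real.sin (θ - ((θ * ((3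 / 4) + (1 / 4) * x)) * x))) * (Real.cos (θ - ((θ * ((3 / 4) + (1 / 4) * x)) * x)))) * ((θ + ((θ * ((5 / 4) + (1 / 4) * x)) * x)) - ((Real.sin (θ + ((θ * ((5 / 4) + (1 / 4) * x)) * x))) * (Real.cos (θ + ((θ * ((5 / 4) + (1 / 4) * x)) * x)))))))) + ((((2 * θ) * (1 + (1 / 4) * x)) * (Sc (((2 * θ) * (1 + (1 / 4) * x)) * x))) * ((((1 + (1 / 4) * x) * (Real.sin (θ + θ * x))) * ((1 + (1 / 4) * x) * (Real.sin (θ + θ * x)))) * ((1 + (1 / 4) * x) * (Real.cos ((θ + ((θ * ((5 / 4) + (1 / 4) * x)) * x)) + (θ - ((θ * ((3 / 4) + (1 / 4) * x)) * x)))))))) =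
      ((((((1 / 2) * θ) + ((2 * (Real.cos θ)) * ((1 * ((Real.cos (θ - 0))⁻¹)) * ((θ * (3 / 4)) * 1)))) - ((((2 * θ) * 1) * 1) * (((Real.cos θ) * (Real.cos θ)) * ((1 * ((Real.sin (θ + 0))⁻¹)) * ((Real.sin (θ - 0))⁻¹))))) * ((((Real.sin (θ + 0)) - ((θ + 0) * (Real.cos (θ + 0)))) * (Real.sin (θ + 0))) + (((Real.sin (θ - 0)) * (Real.cos (θ - 0))) * ((θ + 0) - ((Real.sin (θ + 0)) * (Real.cos (θ + 0))))))) + ((((2 * θ) * 1) * 1) * (((1 * (Real.sin θ)) * (1 * (Real.sin θ))) * (1 * (Real.cos ((θ + 0) + (θ - 0))))))) + g * x ∧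
    (((1 / 2) * θ) + ((Real.sin θ) * ((1 + (1 / 4) * x) * ((((θ * ((3 / 4) + (1 / 4) * x)) * (Sc ((θ * ((3 / 4) + (1 / 4) * x)) * x))) * ((Real.sin (θ - ((θ * ((3 / 4) + (1 / 4) * x)) * x)))⁻¹)) - (((θ * ((5 / 4) + (1 / 4) * x)) * (Sc ((θ * ((5 / 4) + (1 / 4) * x)) * x))) * ((Real.sin (θ + ((θ * ((5 / 4) + (1 / 4) * x)) * x)))⁻¹)))))) =
      (((1 / 2) * θ) + ((Real.sin θ) * (1 * ((((θ * (3 / 4)) * 1) * ((Real.sin (θ - 0))⁻¹)) - (((θ * (5 / 4)) * 1) * ((Real.sin (θ + 0))⁻¹)))))) + j * x ∧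
    (((Real.cos θ) * ((((Real.sin (θ + ((θ * ((5 / 4) + (1 / 4) * x)) * x))) - ((θ + ((θ * ((5 / 4) + (1 / 4) * x)) * x)) * (Real.cos (θ + ((θ * ((5 / 4) + (1 / 4) * x)) * x))))) * (Real.sin (θ + ((θ * ((5 / 4) + (1 / 4) * x)) * x)))) + (((Real.sin (θ - ((θ * ((3 / 4) + (1 / 4) * x)) * x))) * (Real.cos (θ - ((θ * ((3 / 4) + (1 / 4) * x)) * x)))) * ((θ + ((θ * ((5 / 4) + (1 / 4) * x)) * x)) - ((Real.sin (θ + ((θ * ((5 / 4) + (1 / 4) * x)) * x))) * (Real.cos (θ + ((θ * ((5 / 4) + (1 / 4) * x)) * x)))))))) - ((((1 + (1 / 4) * x) * (Real.sin (θ + θ * x))) * ((Real.sin (θ + ((θ * ((5 / 4) + (1 / 4) * x)) * x))) * (Real.sin (θ + ((θ * ((5 / 4) + (1 / 4) * x)) * x))))) * ((Real.sin (θ - ((θ * ((3 / 4) + (1 / 4) * x)) * x))) * (Real.cos (θ - ((θ * ((3 / 4) + (1 / 4) * x)) * x)))))) =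
      (((Real.cos θ) * ((((Real.sin (θ + 0)) - ((θ + 0) * (Real.cos (θ + 0)))) * (Real.sin (θ + 0))) + (((Real.sin (θ - 0)) * (Real.cos (θ - 0))) * ((θ + 0) - ((Real.sin (θ + 0)) * (Real.cos (θ + 0))))))) - (((1 * (Real.sin θ)) * ((Real.sin (θ + 0)) * (Real.sin (θ + 0)))) * ((Real.sin (θ - 0)) * (Real.cos (θ - 0))))) + v * x ∧
    0 ≤ ((((((1 / 16) * (θ + ((Real.sin θ) * (Real.cos θ)))) * ((((Real.sin (θ + ((θ * ((5 / 4) + (1 / 4) * x)) * x))) - ((θ + ((θ * ((5 / 4) + (1 / 4) * x)) * x)) * (Real.cos (θ + ((θ * ((5 / 4) + (1 / 4) * x)) * x))))) * (Real.sin (θ + ((θ * ((5 / 4) + (1 / 4) * x)) * x)))) + (((Real.sin (θ - ((θ * ((3 / 4) + (1 / 4) * x)) * x))) * (Real.cos (θ - ((θ * ((3 / 4) + (1 / 4) * x)) * x)))) * ((θ + ((θ * ((5 / 4) + (1 / 4) * x)) * x)) - ((Real.sin (θ + ((θ * ((5 / 4) + (1 / 4) * x)) * x))) *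 (Real.cos (θ + ((θ * ((5 / 4) + (1 / 4) * x)) * x)))))))) + g) * ((((Real.sin (θ + ((θ * ((5 / 4) + (1 / 4) * x)) * x))) - ((θ + ((θ * ((5 / 4) + (1 / 4) * x)) * x)) * (Real.cos (θ + ((θ * ((5 / 4) + (1 / 4) * x)) * x))))) * (Real.sin (θ + ((θ * ((5 / 4) + (1 / 4) * x)) * x)))) * ((Real.sin (θ - ((θ * ((3 / 4) + (1 / 4) * x)) * x))) * (Real.cos (θ - ((θ * ((3 / 4) + (1 / 4) * x)) * x)))))) + ((1 + (1 / 4) * x) * (v ^ 2))) ∧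
    0 ≤ (((1 / 16) * (θ - ((Real.sin θ) * (Real.cos θ)))) + j) ∧
    0 ≤ v ∧
    0 < (((Real.cos θ) * (((Real.sin (θ + ((θ * ((5 / 4) + (1 / 4) * x)) * x))) - ((θ + ((θ * ((5 / 4) + (1 / 4) * x)) * x)) * (Real.cos (θ + ((θ * ((5 / 4) + (1 / 4) * x)) * x))))) * (Real.sin (θ + ((θ * ((5 / 4) + (1 / 4) * x)) * x))))) - (((Real.cos θ) * ((((Real.sin (θ + ((θ * ((5 / 4) + (1 / 4) * x)) * x))) - ((θ + ((θ * ((5 / 4) + (1 / 4) * x)) * x)) * (Real.cos (θ + ((θ * ((5 / 4) + (1 / 4) * x)) * x))))) * (Real.sin (θ + ((θ * ((5 / 4) + (1 / 4) * x)) * x)))) + (((Real.sin (θ - ((θ * ((3 / 4) + (1 / 4) * x)) * x))) * (Real.cos (θ - ((θ * ((3 / 4) + (1 / 4) * x)) * x)))) * ((θ + ((θ * ((5 / 4) + (1 / 4) * x)) * x)) - ((Real.sin (θ + ((θ * ((5 / 4) + (1 / 4) * x)) * x))) * (Real.cos (θ + ((θ * ((5 / 4) + (1 / 4) * x)) * x))))))))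 - ((((1 + (1 / 4) * x) * (Real.sin (θ + θ * x))) * ((Real.sin (θ + ((θ * ((5 / 4) + (1 / 4) * x)) * x))) * (Real.sin (θ + ((θ * ((5 / 4) + (1 / 4) * x)) * x))))) * ((Real.sin (θ - ((θ * ((3 / 4) + (1 / 4) * x)) * x))) * (Real.cos (θ - ((θ * ((3 / 4) + (1 / 4) * x)) * x))))))) ∧
    0 ≤ ((((((((1 / 16) * (θ + ((Real.sin θ) * (Real.cos θ)))) * ((((Real.sin (θ + ((θ * ((5 / 4) + (1 / 4) * x)) * x))) - ((θ + ((θ * ((5 / 4) + (1 / 4) * x)) * x)) * (Real.cos (θ + ((θ * ((5 / 4) + (1 / 4) * x)) * x))))) * (Real.sin (θ + ((θ * ((5 / 4) + (1 / 4) * x)) * x)))) + (((Real.sin (θ - ((θ * ((3 / 4) + (1 / 4) * x)) * x))) * (Real.cos (θ - ((θ * ((3 / 4) + (1 / 4) * x)) * x)))) * ((θ + ((θ * ((5 / 4) + (1 / 4) * x)) * x)) - ((Real.sin (θ + ((θ * ((5 / 4) + (1 / 4) * x)) * x))) * (Real.cos (θ + ((θ * ((5 / 4) + (1 / 4) * x)) *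 x)))))))) + g) + ((((16 / 25) * (((Real.cos θ) * ((Real.sin θ)⁻¹)) ^ 2)) * (((1 / 16) * (θ - ((Real.sin θ) * (Real.cos θ)))) + j)) * ((((Real.sin (θ + ((θ * ((5 / 4) + (1 / 4) * x)) * x))) - ((θ + ((θ * ((5 / 4) + (1 / 4) * x)) * x)) * (Real.cos (θ + ((θ * ((5 / 4) + (1 / 4) * x)) * x))))) * (Real.sin (θ + ((θ * ((5 / 4) + (1 / 4) * x)) * x)))) + (((Real.sin (θ - ((θ * ((3 / 4) + (1 / 4) * x)) * x))) * (Real.cos (θ - ((θ * ((3 / 4) + (1 / 4) * x)) * x)))) * ((θ + ((θ * ((5 / 4) + (1 / 4) * x)) * x)) - ((Real.sin (θ + ((θ * ((5 / 4) + (1 / 4) * x)) * x))) * (Real.cos (θ + ((θ * ((5 / 4) + (1 / 4) * x)) * x))))))))) * ((((Real.sin (θ + ((θ * ((5 / 4) + (1 / 4) * x)) * x))) - ((θ + ((θ * ((5 / 4) + (1 / 4) * x)) * x)) * (Real.cos (θ + ((θ * ((5 / 4) + (1 / 4) * x)) * x))))) * (Real.sin (θ + ((θ * ((5 / 4) + (1 /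 4) * x)) * x)))) * ((Real.sin (θ - ((θ * ((3 / 4) + (1 / 4) * x)) * x))) * (Real.cos (θ - ((θ * ((3 / 4) + (1 / 4) * x)) * x)))))) * ((2 * (((Real.sin (θ + ((θ * ((5 / 4) + (1 / 4) * x)) * x))) - ((θ + ((θ * ((5 / 4) + (1 / 4) * x)) * x)) * (Real.cos (θ + ((θ * ((5 / 4) + (1 / 4) * x)) * x))))) * (Real.sin (θ + ((θ * ((5 / 4) + (1 / 4) * x)) * x))))) - ((2 * (((Real.cos θ) * ((((Real.sin (θ + ((θ * ((5 / 4) + (1 / 4) * x)) * x))) - ((θ + ((θ * ((5 / 4) + (1 / 4) * x)) * x)) * (Real.cos (θ + ((θ * ((5 / 4) + (1 / 4) * x)) * x))))) * (Real.sin (θ + ((θ * ((5 / 4) + (1 / 4) * x)) * x)))) + (((Real.sin (θ - ((θ * ((3 / 4) + (1 / 4) * x)) * x))) * (Real.cos (θ - ((θ * ((3 / 4) + (1 / 4) * x)) * x)))) * ((θ + ((θ * ((5 / 4) + (1 / 4) * x)) * x)) - ((Real.sin (θ + ((θ * ((5 / 4) + (1 / 4) * x)) * x))) * (Real.cos (θ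 + ((θ * ((5 / 4) + (1 / 4) * x)) * x)))))))) - ((((1 + (1 / 4) * x) * (Real.sin (θ + θ * x))) * ((Real.sin (θ + ((θ * ((5 / 4) + (1 / 4) * x)) * x))) * (Real.sin (θ + ((θ * ((5 / 4) + (1 / 4) * x)) * x))))) * ((Real.sin (θ - ((θ * ((3 / 4) + (1 / 4) * x)) * x))) * (Real.cos (θ - ((θ * ((3 / 4) + (1 / 4) * x)) * x))))))) * ((Real.cos θ)⁻¹)))) + (((1 + (1 / 4) * x) * (v ^ 2)) * (((2 * (((Real.sin (θ + ((θ * ((5 / 4) + (1 / 4) * x)) * x))) - ((θ + ((θ * ((5 / 4) + (1 / 4) * x)) * x)) * (Real.cos (θ + ((θ * ((5 / 4) + (1 / 4) * x)) * x))))) * (Real.sin (θ + ((θ * ((5 / 4) + (1 / 4) * x)) * x))))) - ((2 * (((Real.cos θ) * ((((Real.sin (θ + ((θ * ((5 / 4) + (1 / 4) * x)) * x))) - ((θ + ((θ * ((5 / 4) + (1 / 4) * x)) * x)) * (Real.cos (θ + ((θ * ((5 / 4) + (1 / 4) * x)) * x))))) * (Real.sin (θ + ((θ * ((5 / 4) + (1 /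 4) * x)) * x)))) + (((Real.sin (θ - ((θ * ((3 / 4) + (1 / 4) * x)) * x))) * (Real.cos (θ - ((θ * ((3 / 4) + (1 / 4) * x)) * x)))) * ((θ + ((θ * ((5 / 4) + (1 / 4) * x)) * x)) - ((Real.sin (θ + ((θ * ((5 / 4) + (1 / 4) * x)) * x))) * (Real.cos (θ + ((θ * ((5 / 4) + (1 / 4) * x)) * x)))))))) - ((((1 + (1 / 4) * x) * (Real.sin (θ + θ * x))) * ((Real.sin (θ + ((θ * ((5 / 4) + (1 / 4) * x)) * x))) * (Real.sin (θ + ((θ * ((5 / 4) + (1 / 4) * x)) * x))))) * ((Real.sin (θ - ((θ * ((3 / 4) + (1 / 4) * x)) * x))) * (Real.cos (θ - ((θ * ((3 / 4) + (1 / 4) * x)) * x))))))) * ((Real.cos θ)⁻¹))) - ((16 / 25) * ((((Real.sin (θ + ((θ * ((5 / 4) + (1 / 4) * x)) * x))) - ((θ + ((θ * ((5 / 4) + (1 / 4) * x)) * x)) * (Real.cos (θ + ((θ * ((5 / 4) + (1 / 4) * x)) * x))))) * (Real.sin (θ + ((θ * ((5 / 4) + (1 / 4) * x)) * x)))) + (((Real.sin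 (θ - ((θ * ((3 / 4) + (1 / 4) * x)) * x))) * (Real.cos (θ - ((θ * ((3 / 4) + (1 / 4) * x)) * x)))) * ((θ + ((θ * ((5 / 4) + (1 / 4) * x)) * x)) - ((Real.sin (θ + ((θ * ((5 / 4) + (1 / 4) * x)) * x))) * (Real.cos (θ + ((θ * ((5 / 4) + (1 / 4) * x)) * x))))))))))) ∧
    0 ≤ ((((((((1 / 16) * (θ + ((Real.sin θ) * (Real.cos θ)))) * ((((Real.sin (θ + ((θ * ((5 / 4) + (1 / 4) * x)) * x))) - ((θ + ((θ * ((5 / 4) + (1 / 4) * x)) * x)) * (Real.cos (θ + ((θ * ((5 / 4) + (1 / 4) * x)) * x))))) * (Real.sin (θ + ((θ * ((5 / 4) + (1 / 4) * x)) * x)))) + (((Real.sin (θ - ((θ * ((3 / 4) + (1 / 4) * x)) * x))) * (Real.cos (θ - ((θ * ((3 / 4) + (1 / 4) * x)) * x)))) * ((θ + ((θ * ((5 / 4) + (1 / 4) * x)) * x)) - ((Real.sin (θ + ((θ * ((5 / 4) + (1 / 4) * x)) * x))) * (Real.cos (θ + ((θ * ((5 / 4) + (1 / 4) * x)) * x)))))))) + g)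 + ((((16 / 25) * (((Real.cos θ) * ((Real.sin θ)⁻¹)) ^ 2)) * (((1 / 16) * (θ - ((Real.sin θ) * (Real.cos θ)))) + j)) * ((((Real.sin (θ + ((θ * ((5 / 4) + (1 / 4) * x)) * x))) - ((θ + ((θ * ((5 / 4) + (1 / 4) * x)) * x)) * (Real.cos (θ + ((θ * ((5 / 4) + (1 / 4) * x)) * x))))) * (Real.sin (θ + ((θ * ((5 / 4) + (1 / 4) * x)) * x)))) + (((Real.sin (θ - ((θ * ((3 / 4) + (1 / 4) * x)) * x))) * (Real.cos (θ - ((θ * ((3 / 4) + (1 / 4) * x)) * x)))) * ((θ + ((θ * ((5 / 4) + (1 / 4) * x)) * x)) - ((Real.sin (θ + ((θ * ((5 / 4) + (1 / 4) * x)) * x))) * (Real.cos (θ + ((θ * ((5 / 4) + (1 / 4) * x)) * x))))))))) * ((((Real.sin (θ + ((θ * ((5 / 4) + (1 / 4) * x)) * x))) - ((θ + ((θ * ((5 / 4) + (1 / 4) * x)) * x)) * (Real.cos (θ + ((θ * ((5 / 4) + (1 / 4) * x)) * x))))) * (Real.sin (θ + ((θ * ((5 / 4) + (1 / 4) * x)) * x))))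 * ((Real.sin (θ - ((θ * ((3 / 4) + (1 / 4) * x)) * x))) * (Real.cos (θ - ((θ * ((3 / 4) + (1 / 4) * x)) * x)))))) * (((16 / 25) * ((((Real.sin (θ + ((θ * ((5 / 4) + (1 / 4) * x)) * x))) - ((θ + ((θ * ((5 / 4) + (1 / 4) * x)) * x)) * (Real.cos (θ + ((θ * ((5 / 4) + (1 / 4) * x)) * x))))) * (Real.sin (θ + ((θ * ((5 / 4) + (1 / 4) * x)) * x)))) + (((Real.sin (θ - ((θ * ((3 / 4) + (1 / 4) * x)) * x))) * (Real.cos (θ - ((θ * ((3 / 4) + (1 / 4) * x)) * x)))) * ((θ + ((θ * ((5 / 4) + (1 / 4) * x)) * x)) - ((Real.sin (θ + ((θ * ((5 / 4) + (1 / 4) * x)) * x))) * (Real.cos (θ + ((θ * ((5 / 4) + (1 / 4) * x)) * x)))))))) + (((18 / 25) * (((Real.sin (θ + ((θ * ((5 / 4) + (1 / 4) * x)) * x))) - ((θ + ((θ * ((5 / 4) + (1 / 4) * x)) * x)) * (Real.cos (θ + ((θ * ((5 / 4) + (1 / 4) * x)) * x))))) * (Real.sin (θ + ((θ * ((5 / 4)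 + (1 / 4) * x)) * x))))) - ((2 * (((Real.cos θ) * ((((Real.sin (θ + ((θ * ((5 / 4) + (1 / 4) * x)) * x))) - ((θ + ((θ * ((5 / 4) + (1 / 4) * x)) * x)) * (Real.cos (θ + ((θ * ((5 / 4) + (1 / 4) * x)) * x))))) * (Real.sin (θ + ((θ * ((5 / 4) + (1 / 4) * x)) * x)))) + (((Real.sin (θ - ((θ * ((3 / 4) + (1 / 4) * x)) * x))) * (Real.cos (θ - ((θ * ((3 / 4) + (1 / 4) * x)) * x)))) * ((θ + ((θ * ((5 / 4) + (1 / 4) * x)) * x)) - ((Real.sin (θ + ((θ * ((5 / 4) + (1 / 4) * x)) * x))) * (Real.cos (θ + ((θ * ((5 / 4) + (1 / 4) * x)) * x)))))))) - ((((1 + (1 / 4) * x) * (Real.sin (θ + θ * x))) * ((Real.sin (θ + ((θ * ((5 / 4) + (1 / 4) * x)) * x))) * (Real.sin (θ + ((θ * ((5 / 4) + (1 / 4) * x)) * x))))) * ((Real.sin (θ - ((θ * ((3 / 4) + (1 / 4) * x)) * x))) * (Real.cos (θ - ((θ * ((3 / 4) + (1 / 4) * x)) * x))))))) * ((Real.cos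 θ)⁻¹))))) + (((1 + (1 / 4) * x) * (v ^ 2)) * (((18 / 25) * (((Real.sin (θ + ((θ * ((5 / 4) + (1 / 4) * x)) * x))) - ((θ + ((θ * ((5 / 4) + (1 / 4) * x)) * x)) * (Real.cos (θ + ((θ * ((5 / 4) + (1 / 4) * x)) * x))))) * (Real.sin (θ + ((θ * ((5 / 4) + (1 / 4) * x)) * x))))) - ((2 * (((Real.cos θ) * ((((Real.sin (θ + ((θ * ((5 / 4) + (1 / 4) * x)) * x))) - ((θ + ((θ * ((5 / 4) + (1 / 4) * x)) * x)) * (Real.cos (θ + ((θ * ((5 / 4) + (1 / 4) * x)) * x))))) * (Real.sin (θ + ((θ * ((5 / 4) + (1 / 4) * x)) * x)))) + (((Real.sin (θ - ((θ * ((3 / 4) + (1 / 4) * x)) * x))) * (Real.cos (θ - ((θ * ((3 / 4) + (1 / 4) * x)) * x)))) * ((θ + ((θ * ((5 / 4) + (1 / 4) * x)) * x)) - ((Real.sin (θ + ((θ * ((5 / 4) + (1 / 4) * x)) * x))) * (Real.cos (θ + ((θ * ((5 / 4) + (1 / 4) * x)) * x)))))))) - ((((1 + (1 / 4) * x) * (Real.sin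 (θ + θ * x))) * ((Real.sin (θ + ((θ * ((5 / 4) + (1 / 4) * x)) * x))) * (Real.sin (θ + ((θ * ((5 / 4) + (1 / 4) * x)) * x))))) * ((Real.sin (θ - ((θ * ((3 / 4) + (1 / 4) * x)) * x))) * (Real.cos (θ - ((θ * ((3 / 4) + (1 / 4) * x)) * x))))))) * ((Real.cos θ)⁻¹))))) := by
  unfold a3P at h
  obtain ⟨s_1, ms_1, h⟩ := sinK_sound hθ h
  obtain ⟨c_2, mc_2, h⟩ := cosK_sound hθ h
  obtain ⟨i_3, mi_3, h⟩ := mulK_sound ms_1 mc_2 h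
  obtain ⟨i_4, mi_4, h, _⟩ := invK_sound ms_1 h
  obtain ⟨K_5, mK_5, h⟩ := linU_sound hX c1_mem c14_mem h
  obtain ⟨u_6, mu_6, h⟩ := linU_sound hX c54_mem c14_mem h
  obtain ⟨u_7, mu_7, h⟩ := linU_sound hX c34_mem c14_mem h
  obtain ⟨g_8, mg_8, h⟩ := cmulU_sound hθ mu_6 h
  obtain ⟨g_9, mg_9, h⟩ := cmulU_sound hθ mu_7 h
  obtain ⟨e_10, me_10, h⟩ := xmulU_sound hX mg_8 h
  obtain ⟨e_11, me_11, h⟩ := xmulU_sound hX mg_9 h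
  obtain ⟨t_12, mt_12, h⟩ := cstU_sound (x := x) hθ h
  obtain ⟨B_13, mB_13, h⟩ := addU_sound mt_12 me_10 h
  obtain ⟨b_14, mb_14, h⟩ := subU_sound mt_12 me_11 h
  obtain ⟨b_15, mb_15, h⟩ := linU_sound hX hθ hθ h
  obtain ⟨S_16, mS_16, h⟩ := sinU_sound hX mB_13 h
  obtain ⟨C_17, mC_17, h⟩ := cosU_sound hX mB_13 h
  obtain ⟨S_18, mS_18, h⟩ := sinU_sound hX mb_14 h
  obtain ⟨C_19, mC_19, h⟩ := cosU_sound hX mb_14 h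
  obtain ⟨z_20, mz_20, h⟩ := sinU_sound hX mb_15 h
  obtain ⟨u_21, mu_21, h⟩ := addU_sound mB_13 mb_14 h
  obtain ⟨w_22, mw_22, h⟩ := cosU_sound hX mu_21 h
  obtain ⟨u_23, mu_23, h⟩ := mulU_sound mS_16 mC_17 h
  obtain ⟨u_24, mu_24, h⟩ := mulU_sound mB_13 mC_17 h
  obtain ⟨N_25, mN_25, h⟩ := subU_sound mS_16 mu_24 h
  obtain ⟨u_26, mu_26, h⟩ := subU_sound mB_13 mu_23 h
  obtain ⟨u_27, mu_27, h⟩ := mulU_sound mN_25 mS_16 h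
  obtain ⟨u_28, mu_28, h⟩ := mulU_sound mS_18 mC_19 h
  obtain ⟨u_29, mu_29, h⟩ := mulU_sound mu_28 mu_26 h
  obtain ⟨D_30, mD_30, h⟩ := addU_sound mu_27 mu_29 h
  obtain ⟨u_31, mu_31, h, _, _⟩ := invU_sound mS_16 h
  obtain ⟨u_32, mu_32, h, _, _⟩ := invU_sound mS_18 h
  obtain ⟨u_33, mu_33, h, _, _⟩ := invU_sound mC_19 h
  obtain ⟨i_34, mi_34, h⟩ := mulK_sound mc_2 mc_2 h
  obtain ⟨u_35, mu_35, h⟩ := mulU_sound mK_5 mu_31 h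
  obtain ⟨u_36, mu_36, h⟩ := mulU_sound mu_35 mu_32 h
  obtain ⟨u_37, mu_37, h⟩ := cmulU_sound mi_34 mu_36 h
  obtain ⟨u_38, mu_38, h⟩ := mulU_sound mK_5 mz_20 h
  obtain ⟨u_39, mu_39, h⟩ := mulU_sound mu_38 mu_38 h
  obtain ⟨u_40, mu_40, h⟩ := mulU_sound mK_5 mw_22 h
  obtain ⟨u_41, mu_41, h⟩ := mulU_sound mu_39 mu_40 h
  obtain ⟨u_42, mu_42, h⟩ := scU_sound hX mg_9 h
  obtain ⟨u_43, mu_43, h⟩ := scU_sound hX mg_8 h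
  obtain ⟨u_44, mu_44, h⟩ := mulU_sound mg_9 mu_42 h
  obtain ⟨u_45, mu_45, h⟩ := mulU_sound mg_8 mu_43 h
  obtain ⟨u_46, mu_46, h⟩ := mulU_sound mK_5 mu_33 h
  obtain ⟨u_47, mu_47, h⟩ := mulU_sound mu_46 mu_44 h
  obtain ⟨i_48, mi_48, h⟩ := mulK_sound c2_mem mc_2 h
  obtain ⟨u_49, mu_49, h⟩ := cmulU_sound mi_48 mu_47 h
  obtain ⟨i_50, mi_50, h⟩ := mulK_sound c2_mem hθ h
  obtain ⟨u_51, mu_51, h⟩ := cmulU_sound mi_50 mK_5 h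
  obtain ⟨u_52, mu_52, h⟩ := scU_sound hX mu_51 h
  obtain ⟨u_53, mu_53, h⟩ := mulU_sound mu_51 mu_52 h
  obtain ⟨i_54, mi_54, h⟩ := mulK_sound c12_mem hθ h
  obtain ⟨u_55, mu_55, h⟩ := cstU_sound (x := x) mi_54 h
  obtain ⟨u_56, mu_56, h⟩ := addU_sound mu_55 mu_49 h
  obtain ⟨u_57, mu_57, h⟩ := mulU_sound mu_53 mu_37 h
  obtain ⟨u_58, mu_58, h⟩ := subU_sound mu_56 mu_57 h
  obtain ⟨u_59, mu_59, h⟩ := mulU_sound mu_53 mu_41 h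
  obtain ⟨u_60, mu_60, h⟩ := mulU_sound mu_58 mD_30 h
  obtain ⟨R_61, mR_61, h⟩ := addU_sound mu_60 mu_59 h
  obtain ⟨u_62, mu_62, h⟩ := mulU_sound mu_44 mu_32 h
  obtain ⟨u_63, mu_63, h⟩ := mulU_sound mu_45 mu_31 h
  obtain ⟨u_64, mu_64, h⟩ := subU_sound mu_62 mu_63 h
  obtain ⟨u_65, mu_65, h⟩ := mulU_sound mK_5 mu_64 h
  obtain ⟨u_66, mu_66, h⟩ := cmulU_sound ms_1 mu_65 h
  obtain ⟨Q_67, mQ_67, h⟩ := addU_sound mu_55 mu_66 h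
  obtain ⟨_, _, g, mg, eg⟩ := id mR_61
  obtain ⟨_, _, j, mj, ej⟩ := id mQ_67
  obtain ⟨i_68, mi_68, h⟩ := addK_sound hθ mi_3 h
  obtain ⟨i_69, mi_69, h⟩ := mulK_sound c116_mem mi_68 h
  obtain ⟨i_70, mi_70, h⟩ := mulK_sound mi_69 mD_30.2.1 h
  obtain ⟨i_71, mi_71, h⟩ := addK_sound mi_70 mg h
  obtain ⟨i_72, mi_72, h⟩ := subK_sound hθ mi_3 h
  obtain ⟨i_73, mi_73, h⟩ := mulK_sound c116_mem mi_72 h
  obtain ⟨i_74, mi_74, h⟩ := addK_sound mi_73 mj h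
  obtain ⟨i_75, mi_75, h⟩ := mulK_sound mc_2 mi_4 h
  obtain ⟨i_76, mi_76, h⟩ := sqK_sound mi_75 h
  obtain ⟨i_77, mi_77, h⟩ := mulK_sound cq_mem mi_76 h
  obtain ⟨i_78, mi_78, h⟩ := mulK_sound mi_77 mi_74 h
  obtain ⟨i_79, mi_79, h⟩ := mulK_sound mi_78 mD_30.2.1 h
  obtain ⟨i_80, mi_80, h⟩ := addK_sound mi_71 mi_79 h
  obtain ⟨u_81, mu_81, h⟩ := cmulU_sound mc_2 mD_30 h
  obtain ⟨u_82, mu_82, h⟩ := mulU_sound mS_16 mS_16 h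
  obtain ⟨u_83, mu_83, h⟩ := mulU_sound mu_38 mu_82 h
  obtain ⟨u_84, mu_84, h⟩ := mulU_sound mu_83 mu_28 h
  obtain ⟨V_85, mV_85, h⟩ := subU_sound mu_81 mu_84 h
  obtain ⟨_, _, v, mv, ev⟩ := id mV_85
  obtain ⟨i_86, mi_86, h⟩ := mulK_sound mu_27.2.1 mu_28.2.1 h
  obtain ⟨i_87, mi_87, h⟩ := sqK_sound mv h
  obtain ⟨i_88, mi_88, h⟩ := mulK_sound mK_5.2.1 mi_87 h
  obtain ⟨i_89, mi_89, h⟩ := mulK_sound mi_71 mi_86 h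
  obtain ⟨i_90, mi_90, h⟩ := addK_sound mi_89 mi_88 h
  obtain ⟨i_91, mi_91, h⟩ := mulK_sound mi_80 mi_86 h
  obtain ⟨i_92, mi_92, h, _⟩ := invK_sound mc_2 h
  obtain ⟨i_93, mi_93, h⟩ := mulK_sound c2_mem mV_85.2.1 h
  obtain ⟨i_94, mi_94, h⟩ := mulK_sound mi_93 mi_92 h
  obtain ⟨i_95, mi_95, h⟩ := mulK_sound c2_mem mu_27.2.1 h
  obtain ⟨i_96, mi_96, h⟩ := subK_sound mi_95 mi_94 h
  obtain ⟨i_97, mi_97, h⟩ := mulK_sound c18_mem mu_27.2.1 h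
  obtain ⟨i_98, mi_98, h⟩ := subK_sound mi_97 mi_94 h
  obtain ⟨i_99, mi_99, h⟩ := mulK_sound cq_mem mD_30.2.1 h
  obtain ⟨i_100, mi_100, h⟩ := mulK_sound mi_91 mi_96 h
  obtain ⟨i_101, mi_101, h⟩ := subK_sound mi_96 mi_99 h
  obtain ⟨i_102, mi_102, h⟩ := mulK_sound mi_88 mi_101 h
  obtain ⟨i_103, mi_103, h⟩ := addK_sound mi_100 mi_102 h
  obtain ⟨i_104, mi_104, h⟩ := addK_sound mi_99 mi_98 h
  obtain ⟨i_105, mi_105, h⟩ := mulK_sound mi_91 mi_104 h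
  obtain ⟨i_106, mi_106, h⟩ := mulK_sound mi_88 mi_98 h
  obtain ⟨i_107, mi_107, h⟩ := addK_sound mi_105 mi_106 h
  obtain ⟨i_108, mi_108, h⟩ := mulK_sound mc_2 mu_27.2.1 h
  obtain ⟨i_109, mi_109, h⟩ := subK_sound mi_108 mV_85.2.1 h
  obtain ⟨h0, h⟩ := br_f h
  obtain ⟨h1, h⟩ := br_f h
  obtain ⟨h2, h⟩ := br_f h
  obtain ⟨h3, h⟩ := br_f h
  obtain ⟨h4, h⟩ := br_f h
  obtain ⟨h5, h⟩ := br_f h
  exact ⟨g, j, v, eg, ej, ev, nonneg_of_test h0 mi_90, nonneg_of_test h1 mi_74, nonneg_of_test h2 mv, pos_of_test h3 mi_109, nonneg_of_test h4 mi_103, nonneg_of_test h5 mi_107⟩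

end Pool.Agent.H13.IU
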