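import Pool.Agent.H13.IU.B1p
import Pool.Agent.H13.IU.Ex

/-!
# Kernel computation
-/

namespace Pool.Agent.H13.IU

set_option maxRecDepth 20000

theorem b1l : bis exB1 b1P 16 69954279833 70061654016 68719476736 69256347648 = true := by
  decide +kernel

end Pool.Agent.H13.IU
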