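import Pool.Agent.H13.IU.Sn
import Pool.Agent.H12.PR.D

/-!
# Desingularised closed forms of `S0`, `D0`, `cw`

`K = 1 + k x`, `B = θ + g1 x`, `β = θ - g2 x`, `g1 + g2 = 2 θ K`.
-/

namespace Pool.Agent.H13.IU

open Pool.Agent.H12.PR

theorem n_pos {B : ℝ} (h0 : 0 < B) (h1 : B < Real.pi) : 0 < Real.sin B - B * Real.cos B := by
  have hs : 0 < Real.sin B := Real.sin_pos_of_pos_of_lt_pi h0 h1
  rcases lt_or_ge B (Real.pi / 2) with h2 | h2
  · have hc : 0 < Real.cos B := Real.cos_pos_of_mem_Ioo ⟨by linarith, h2⟩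
    have := Real.lt_tan h0 h2
    rw [Real.tan_eq_sin_div_cos, lt_div_iff₀ hc] at this
    linarith
  · have hc : Real.cos B ≤ 0 := Real.cos_nonpos_of_pi_div_two_le_of_le h2 (by linarith)
    nlinarith

theorem bs_pos {B : ℝ} (h0 : 0 < B) : 0 < B - Real.sin B * Real.cos B := by
  have h := Real.sin_lt (x := 2 * B) (by linarith)
  rw [Real.sin_two_mul] at h
  linarith

theorem tr_A (B θ : ℝ) : Real.sin θ * Real.cos θ - Real.sin B * Real.cos B =
    -(Real.cos (B + θ) * Real.sin (B - θ)) := by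
  rw [Real.cos_add, Real.sin_sub]
  linear_combination (Real.sin B * Real.cos B) * Real.sin_sq_add_cos_sq θ -
      (Real.sin θ * Real.cos θ) * Real.sin_sq_add_cos_sq B

theorem tr_B (B θ : ℝ) : Real.cos B * Real.sin θ - Real.cos θ * Real.sin B =
    -Real.sin (B - θ) := by
  rw [Real.sin_sub]
  ring

theorem tr_C (θ β : ℝ) : Real.sin θ * Real.cos β - Real.cos θ * Real.sin β =
    Real.sin (θ - β) := by
  rw [Real.sin_sub]

private theorem red_S_alg {θ s c B sB cB sb cb s1 K D CW v w : ℝ} (hc : c ≠ 0)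
    (hsB : sB ≠ 0) (hsb : sb ≠ 0) (hcb : cb ≠ 0) (hD : D ≠ 0)
    (hA : sb * cb - sB * cB = -(CW * v)) (hB : cB * sb - cb * sB = -v)
    (hC : s * cb - c * sb = w) :
    (K ^ 2 * (θ + s * c) - (θ - s * c) + K * c ^ 2 * (cB / sB - 2 * (sb / cb) - cb / sb) -
      K ^ 3 * s1 ^ 2 * ((sb * cb - sB * cB) / D)) * D =
    ((K ^ 2 - 1) * θ + (K - 1) ^ 2 * (s * c) + 2 * c * (K * cb⁻¹ * w) -
      v * ((c * c) * ((K * sB⁻¹) * sb⁻¹))) * D + v * (((K * s1) * (K * s1)) * (K * CW)) := by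
  rw [hA]
  have e1 : cB / sB = cb / sb - v / (sB * sb) := by
    field_simp
    linear_combination hB
  have e2 : sb / cb = s / c - w / (c * cb) := by
    field_simp
    linear_combination -hC
  rw [e1, e2]
  field_simp
  ring

private theorem red_D_alg {θ s c sB cB sb cb K v w : ℝ} (hs : s ≠ 0)
    (hsB : sB ≠ 0) (hsb : sb ≠ 0) (hB : cB * s - c * sB = -v)
    (hC : s * cb - c * sb = w) :
    K ^ 2 * (θ - s * c) - (θ + s * c) + K * s ^ 2 * (cB / sB + cb / sb) =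
    (K ^ 2 - 1) * θ - (K - 1) ^ 2 * (s * c) + s * (K * (w * sb⁻¹ - v * sB⁻¹)) := by
  have e1 : cB / sB = c / s - v / (sB * s) := by
    field_simp
    linear_combination hB
  have e2 : cb / sb = c / s + w / (s * sb) := by
    field_simp
    linear_combination hC
  rw [e1, e2]
  field_simp
  ring

/-- `De` -/
noncomputable def De (B β : ℝ) : ℝ :=
  ((Real.sin B - B * Real.cos B) * Real.sin B) +
    ((Real.sin β * Real.cos β) * (B - Real.sin B * Real.cos B))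

theorem red_S {θ b K x k g1 g2 B β t2k : ℝ} (hK : K = 1 + k * x) (hB : B = θ + g1 * x)
    (hβ : β = θ - g2 * x) (h12 : g1 + g2 = 2 * θ * K) (ht : t2k = 2 * k * θ)
    (hKb : K * b = B) (hKβ : K * (2 * θ - b) = β) (hc : Real.cos θ ≠ 0) (hsB : Real.sin B ≠ 0)
    (hsb : Real.sin β ≠ 0) (hcb : Real.cos β ≠ 0) (hD : De B β ≠ 0) :
    S0 θ b K * De B β = x * ((((t2k + (2 * Real.cos θ) * ((K * (Real.cos β)⁻¹) *
        (g2 * Sc (g2 * x)))) - ((2 * θ * K) * Sc ((2 * θ * K) * x)) *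
        ((Real.cos θ * Real.cos θ) * ((K * (Real.sin B)⁻¹) * (Real.sin β)⁻¹))) * De B β) +
        ((2 * θ * K) * Sc ((2 * θ * K) * x)) * (((K * Real.sin b) * (K * Real.sin b)) *
          (K * Real.cos (B + β)))) +
      x ^ 2 * (k ^ 2 * (θ + Real.sin θ * Real.cos θ) * De B β) := by
  have hA := tr_A B β
  have h1 := tr_B B β
  have h2 := tr_C θ β
  have hv : Real.sin (B - β) = (2 * θ * K) * x * Sc ((2 * θ * K) * x) := by
    rw [← sin_eq_Sc]
    congr 1
    rw [hB, hβ]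
    linear_combination x * h12
  have hw : Real.sin (θ - β) = g2 * x * Sc (g2 * x) := by
    rw [← sin_eq_Sc]
    congr 1
    rw [hβ]
    ring
  have h3 := red_S_alg (θ := θ) (s := Real.sin θ) (B := B) (s1 := Real.sin b) (K := K) hc hsB hsb
    hcb hD hA h1 h2
  unfold S0 Rf Nf
  rw [hKb, hKβ]
  have e : (Real.sin B - B * Real.cos B) * Real.sin B + Real.sin β * Real.cos β *
      (B - Real.sin B * Real.cos B) = De B β := rfl
  rw [e]
  rw [h3, hv, hw, ht, hK]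
  ring

theorem red_D {θ b K x k g1 g2 B β t2k : ℝ} (hK : K = 1 + k * x) (hB : B = θ + g1 * x)
    (hβ : β = θ - g2 * x) (ht : t2k = 2 * k * θ)
    (hKb : K * b = B) (hKβ : K * (2 * θ - b) = β) (hs : Real.sin θ ≠ 0) (hsB : Real.sin B ≠ 0)
    (hsb : Real.sin β ≠ 0) :
    D0 θ b K = x * (t2k + Real.sin θ * (K * (((g2 * Sc (g2 * x)) * (Real.sin β)⁻¹) -
        ((g1 * Sc (g1 * x)) * (Real.sin B)⁻¹)))) +
      x ^ 2 * (k ^ 2 * (θ - Real.sin θ * Real.cos θ)) := by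
  have h1 := tr_B B θ
  have h2 := tr_C θ β
  have hv : Real.sin (B - θ) = g1 * x * Sc (g1 * x) := by
    rw [← sin_eq_Sc]
    congr 1
    rw [hB]
    ring
  have hw : Real.sin (θ - β) = g2 * x * Sc (g2 * x) := by
    rw [← sin_eq_Sc]
    congr 1
    rw [hβ]
    ring
  have h3 := red_D_alg (θ := θ) (K := K) hs hsB hsb h1 h2
  unfold D0
  rw [hKb, hKβ]
  rw [h3, hv, hw, ht, hK]
  ring

/-- `De` at `x = 0` -/
theorem De_zero (θ : ℝ) : De θ θ = Real.sin θ ^ 4 := by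
  unfold De
  linear_combination (-Real.sin θ ^ 2) * Real.sin_sq_add_cos_sq θ

theorem exact_R {θ a t2k : ℝ} (h : t2k + 2 * a = 2 * θ) (hs : Real.sin θ ≠ 0)
    (hc : Real.cos θ ≠ 0) :
    ((((t2k + ((2 * (Real.cos θ)) * ((1 * ((Real.cos (θ - 0))⁻¹)) * (a * 1)))) -
      ((((2 * θ) * 1) * 1) * (((Real.cos θ) * (Real.cos θ)) * ((1 * ((Real.sin (θ + 0))⁻¹)) *
      ((Real.sin (θ - 0))⁻¹))))) * ((((Real.sin (θ + 0)) - ((θ + 0) * (Real.cos (θ + 0)))) *
      (Real.sin (θ + 0))) + (((Real.sin (θ - 0)) * (Real.cos (θ - 0))) * ((θ + 0) -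
      ((Real.sin (θ + 0)) * (Real.cos (θ + 0))))))) + ((((2 * θ) * 1) * 1) *
      (((1 * (Real.sin θ)) * (1 * (Real.sin θ))) * (1 * (Real.cos ((θ + 0) + (θ - 0))))))) = 0 := by
  have e : (((Real.sin θ) - (θ * (Real.cos θ))) * (Real.sin θ)) + (((Real.sin θ) * (Real.cos θ)) *
      (θ - ((Real.sin θ) * (Real.cos θ)))) = Real.sin θ ^ 4 := De_zero θ
  simp only [add_zero, sub_zero, one_mul, mul_one]
  rw [e, show θ + θ = 2 * θ by ring, Real.cos_two_mul']
  have e2 : t2k = 2 * θ - 2 * a := by linarith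
  rw [e2]
  field_simp
  ring

theorem exact_Q {θ a a' t2k : ℝ} (h : t2k + a - a' = 0) (hs : Real.sin θ ≠ 0) :
    (t2k + ((Real.sin θ) * (1 * (((a * 1) * ((Real.sin (θ - 0))⁻¹)) -
      ((a' * 1) * ((Real.sin (θ + 0))⁻¹)))))) = 0 := by
  simp only [add_zero, sub_zero, one_mul, mul_one]
  field_simp
  linear_combination h

end Pool.Agent.H13.IU
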