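import Pool.Agent.H13.IU.B1k
import Pool.Agent.H13.IU.B1l
import Pool.Agent.H13.IU.Red

/-!
# Fact B1: from the computation to the statement
-/

namespace Pool.Agent.H13.IU

open Pool.Agent.H15.IA Pool.Agent.H12.PR

/-- the statement proved by the computation -/
private def QB1 (θ x : ℝ) : Prop :=
  21 / 20 ≤ θ → θ ≤ 5 / 4 → 0 < x → x ≤ 1 / 2 → θ * (1 + x) < Real.pi / 2 →
    0 ≤ S0 θ (θ + θ * x) (1 + 1 / 2 * x) ∧ 0 ≤ S1 θ (θ + θ * x) (1 + 1 / 2 * x)

private theorem fB1_box (A X : Iv) (h : b1P A X = true) (θ x : ℝ) (hθ : A.mem θ) (hx : X.mem x) :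
    QB1 θ x := by
  intro h0 h1 h2 h3 h4
  obtain ⟨g, j, hR, hQ, t0, t1⟩ := b1P_sound hθ hx h
  have hpi := Real.pi_gt_d20
  have hθ2 : θ < Real.pi / 2 := by linarith
  have hs : 0 < Real.sin θ := Real.sin_pos_of_pos_of_lt_pi (by linarith) (by linarith)
  have hc : 0 < Real.cos θ := Real.cos_pos_of_mem_Ioo ⟨by linarith, hθ2⟩
  set B := θ + θ * (3 / 2 + 1 / 2 * x) * x with hB
  set β := θ - θ * (1 / 2 + 1 / 2 * x) * x with hβ
  have hx1 : x * x ≤ x * (1 / 2) := mul_le_mul_of_nonneg_left h3 h2.le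
  have hB0 : 0 < B := by positivity
  have hBpi : B < Real.pi := by
    have e : B = θ * (1 + x) * (1 + 1 / 2 * x) := by rw [hB]; ring
    rw [e]
    have : θ * (1 + x) * (1 + 1 / 2 * x) < Real.pi / 2 * (1 + 1 / 2 * x) :=
      mul_lt_mul_of_pos_right h4 (by positivity)
    nlinarith
  have hβe : β = θ * ((1 - x) * (1 + 1 / 2 * x)) := by rw [hβ]; ring
  have hβ0 : 0 < β := by
    rw [hβe]
    exact mul_pos (by linarith) (mul_pos (by linarith) (by positivity))
  have hβ1 : β < Real.pi / 2 := by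
    have : 0 < θ * (1 / 2 + 1 / 2 * x) * x := by positivity
    linarith
  have hsB : 0 < Real.sin B := Real.sin_pos_of_pos_of_lt_pi hB0 hBpi
  have hsb : 0 < Real.sin β := Real.sin_pos_of_pos_of_lt_pi hβ0 (by linarith)
  have hcb : 0 < Real.cos β := Real.cos_pos_of_mem_Ioo ⟨by linarith, hβ1⟩
  have hD : 0 < De B β := by
    unfold De
    have := mul_pos (n_pos hB0 hBpi) hsB
    have := mul_pos (mul_pos hsb hcb) (bs_pos hB0)
    linarith
  have hKb : (1 + 1 / 2 * x) * (θ + θ * x) = B := by rw [hB]; ring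
  have hKβ : (1 + 1 / 2 * x) * (2 * θ - (θ + θ * x)) = β := by rw [hβ]; ring
  rw [exact_R (by ring) hs.ne' hc.ne'] at hR
  rw [exact_Q (by ring) hs.ne'] at hQ
  have rS := red_S (x := x) (k := 1 / 2) (g1 := θ * (3 / 2 + 1 / 2 * x))
    (g2 := θ * (1 / 2 + 1 / 2 * x)) (t2k := θ) rfl hB hβ (by ring) (by ring) hKb hKβ hc.ne' hsB.ne'
    hsb.ne' hcb.ne' hD.ne'
  have rD := red_D (x := x) (k := 1 / 2) (g1 := θ * (3 / 2 + 1 / 2 * x))
    (g2 := θ * (1 / 2 + 1 / 2 * x)) (t2k := θ) rfl hB hβ (by ring) hKb hKβ hs.ne' hsB.ne' hsb.ne'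
  unfold De at rS
  rw [hR] at rS
  rw [hQ] at rD
  have hD' := hD
  unfold De at hD'
  have hx2 : 0 < x ^ 2 := by positivity
  have n0 := mul_nonneg hx2.le t0
  have n1 := mul_nonneg hx2.le t1
  have e3 : Real.cos θ / Real.sin θ = Real.cos θ * (Real.sin θ)⁻¹ := div_eq_mul_inv _ _
  constructor
  · refine nonneg_of_mul_nonneg_left ?_ hD'
    rw [rS]
    linarith
  · refine nonneg_of_mul_nonneg_left ?_ hD'
    unfold S1
    rw [add_mul, rS, rD, e3]
    linarith

private theorem ex_real {A C θ x : ℝ}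
    (h6 : 1811004865522958336 ≤ A * (1073741824 + C)) (hA : A ≤ θ * 1073741824)
    (hC : C ≤ x * 1073741824) (hC0 : 0 ≤ C) (h0 : 21 / 20 ≤ θ)
    (h4 : θ * (1 + x) < Real.pi / 2) : False := by
  have hpi := Real.pi_lt_d20
  have h8 : A * (1073741824 + C) ≤ (θ * 1073741824) * (1073741824 + x * 1073741824) :=
    mul_le_mul hA (by linarith) (by positivity) (by positivity)
  linarith

private theorem fB1_ex (a b c : Nat) (h : exB1 a b c = true) (θ x : ℝ) (hθ : Iv.mem ⟨a, b⟩ θ)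
    (hx : (c : ℝ) ≤ x * 1073741824 + 68719476736) : QB1 θ x := by
  intro h0 h1 h2 h3 h4
  exfalso
  unfold exB1 at h
  have h5 := ble_true h
  have h6 := (Nat.cast_le (α := ℝ)).2 h5
  rw [mul_cast, add_cast] at h6
  have hC : ((Nat.sub c 68719476736 : Nat) : ℝ) ≤ x * 1073741824 :=
    sub_le_real (by positivity) (by rw [Nat.cast_ofNat]; linarith)
  have hA : ((Nat.sub a 68719476736 : Nat) : ℝ) ≤ θ * 1073741824 :=
    sub_le_real (by positivity) (by have := hθ.1; rw [Nat.cast_ofNat]; dsimp only at this; linarith)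
  have hC0 : (0 : ℝ) ≤ ((Nat.sub c 68719476736 : Nat) : ℝ) := Nat.cast_nonneg _
  simp only [Nat.cast_ofNat] at h6
  exact ex_real h6 hA hC hC0 h0 h4

/-- **Fact B1** -/
theorem factB1 {θ b : ℝ} (h0 : 21 / 20 ≤ θ) (h1 : θ ≤ 5 / 4) (h2 : θ < b) (h3 : b < Real.pi / 2) :
    0 ≤ S0 θ b (1 + (b - θ) / (2 * θ)) ∧ 0 ≤ S1 θ b (1 + (b - θ) / (2 * θ)) := by
  have hpi := Real.pi_lt_d20
  have hθ : 0 < θ := by linarith
  set x := (b - θ) / θ with hx
  have hx0 : 0 < x := div_pos (by linarith) hθ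
  have hxd : x * θ = b - θ := div_mul_cancel₀ _ hθ.ne'
  have hx1 : x ≤ 1 / 2 := by
    rw [hx, div_le_iff₀ hθ]
    linarith
  have hK : 1 + (b - θ) / (2 * θ) = 1 + 1 / 2 * x := by
    rw [hx]
    field_simp
  have hb : θ + θ * x = b := by linarith
  have hc : θ * (1 + x) < Real.pi / 2 := by
    have e : θ * (1 + x) = b := by linarith
    rw [e]
    exact h3
  rw [hK]
  have hQ : QB1 θ x := by
    rcases le_total (θ * 1073741824 + 68719476736) 69954279833 with h | h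
    · exact bis_sound (Q := QB1) fB1_ex fB1_box _ _ _ _ _ b1k θ x
        ⟨by push_cast; linarith, by push_cast; linarith⟩
        ⟨by push_cast; linarith, by push_cast; linarith⟩
    · exact bis_sound (Q := QB1) fB1_ex fB1_box _ _ _ _ _ b1l θ x
        ⟨by push_cast; linarith, by push_cast; linarith⟩
        ⟨by push_cast; linarith, by push_cast; linarith⟩
  have := hQ h0 h1 hx0 hx1 hc
  rwa [hb] at this

end Pool.Agent.H13.IU
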