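import Pool.Agent.H13.IU.B2k
import Pool.Agent.H12.PR.D

/-!
# Fact B2: from the computation to the statement

With `β = θ`, `B = θ + 2 θ y`, `v = B - θ`, `K = 1 + y`:
`S0 = (K^2 - 1) θ + (K - 1)^2 s c - sin v * E`, `D0 = (K^2 - 1) θ - (K - 1)^2 s c - sin v * E2`,
`E = K c^2 / (s sin B) - K^3 s1^2 cos (B + θ) / D`, `E2 = K s / sin B`, `E = E2 = 1` at `y = 0`.
-/

namespace Pool.Agent.H13.IU

open Pool.Agent.H15.IA Pool.Agent.H12.PR

private theorem rb2_S0 {θ s c B sB cB s1 K v CW : ℝ} (hs : s ≠ 0) (hc : c ≠ 0) (hsB : sB ≠ 0)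
    (hA : s * c - sB * cB = CW * v) (hB : cB * s - c * sB = -v) :
    K ^ 2 * (θ + s * c) - (θ - s * c) + K * c ^ 2 * (cB / sB - 2 * (s / c) - c / s) -
      K ^ 3 * s1 ^ 2 * ((s * c - sB * cB) / ((sB - B * cB) * sB + s * c * (B - sB * cB))) =
    (K ^ 2 - 1) * θ + (K - 1) ^ 2 * (s * c) - v * (((c * c) * s⁻¹) * (K * sB⁻¹) +
      (((K * s1) * (K * s1)) * (K * CW)) * (((sB - B * cB) * sB + (s * c) * (B - sB * cB))⁻¹)) := by
  rw [hA, div_eq_mul_inv (CW * v)]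
  generalize ((sB - B * cB) * sB + s * c * (B - sB * cB))⁻¹ = iD
  have e : cB / sB = c / s - v / (sB * s) := by
    field_simp
    linear_combination hB
  rw [e]
  field_simp
  ring

private theorem rb2_D0 {θ s c sB cB K v : ℝ} (hs : s ≠ 0) (hsB : sB ≠ 0)
    (hB : cB * s - c * sB = -v) :
    K ^ 2 * (θ - s * c) - (θ + s * c) + K * s ^ 2 * (cB / sB + c / s) =
    (K ^ 2 - 1) * θ - (K - 1) ^ 2 * (s * c) - v * (s * (K * sB⁻¹)) := by
  have e : cB / sB = c / s - v / (sB * s) := by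
    field_simp
    linear_combination hB
  rw [e]
  field_simp
  ring

theorem trig_A (B θ : ℝ) : Real.sin θ * Real.cos θ - Real.sin B * Real.cos B =
    -Real.cos (B + θ) * Real.sin (B - θ) := by
  rw [Real.cos_add, Real.sin_sub]
  linear_combination (Real.sin B * Real.cos B) * Real.sin_sq_add_cos_sq θ -
      (Real.sin θ * Real.cos θ) * Real.sin_sq_add_cos_sq B

theorem trig_B (B θ : ℝ) : Real.cos B * Real.sin θ - Real.cos θ * Real.sin B =
    -Real.sin (B - θ) := by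
  rw [Real.sin_sub]
  ring

theorem fB2_aux {θ y : ℝ} (h0 : 0 < θ) (h1 : θ < Real.pi / 2) (hy : 0 < y)
    (hy1 : y ≤ 1)
    (hc : θ * (1 + 2 * y) < Real.pi / 2 * (1 + y)) {b : ℝ} (hb : b = 2 * θ - θ * (1 + 1 * y)⁻¹)
    {g k : ℝ}
    (hE : (((((Real.cos θ) * (Real.cos θ)) * ((Real.sin θ)⁻¹)) * ((1 + 1 * y) * ((Real.sin (θ + (2 * θ) * y))⁻¹))) + (((((1 + 1 * y) * (Real.sin ((2 * θ) - (θ * ((1 + 1 * y)⁻¹))))) * ((1 + 1 * y) * (Real.sin ((2 * θ) - (θ * ((1 + 1 * y)⁻¹)))))) * ((1 + 1 * y) * (Real.cos ((Real.pi - (2 * θ)) + (-(2 * θ)) * y)))) * (((((Real.sin (θ + (2 * θ) * y)) - ((θ + (2 * θ) * y) * (Real.cos (θ + (2 * θ) * y)))) * (Real.sin (θ + (2 * θ) * y))) + (((Real.sin θ) * (Real.cos θ)) * ((θ + (2 * θ) * y) - ((Real.sin (θ + (2 * θ) * y)) * (Real.cos (θ + (2 * θ) * y))))))⁻¹))) =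
      (((((Real.cos θ) * (Real.cos θ)) * ((Real.sin θ)⁻¹)) * (1 * ((Real.sin θ)⁻¹))) + ((((1 * (Real.sin ((2 * θ) - (θ * (1⁻¹))))) * (1 * (Real.sin ((2 * θ) - (θ * (1⁻¹)))))) * (1 * (Real.cos (Real.pi - (2 * θ))))) * (((((Real.sin θ) - (θ * (Real.cos θ))) * (Real.sin θ)) + (((Real.sin θ) * (Real.cos θ)) * (θ - ((Real.sin θ) * (Real.cos θ)))))⁻¹))) + g * y)
    (hE2 : ((Real.sin θ) * ((1 + 1 * y) * ((Real.sin (θ + (2 * θ) * y))⁻¹))) =
      ((Real.sin θ) * (1 * ((Real.sin θ)⁻¹))) + k * y) :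
    S0 θ b (1 + y) = y ^ 2 * (((θ + ((Real.sin θ) * (Real.cos θ))) + ((((2 * θ) ^ 2) * ((2 * θ) * y)) * (Sf ((2 * θ) * y)))) - (((2 * θ) * (Sc ((2 * θ) * y))) * g)) ∧
    D0 θ b (1 + y) = y ^ 2 * (((θ - ((Real.sin θ) * (Real.cos θ))) + ((((2 * θ) ^ 2) * ((2 * θ) * y)) * (Sf ((2 * θ) * y)))) - (((2 * θ) * (Sc ((2 * θ) * y))) * k)) := by
  have hpi := Real.pi_pos
  have hs : 0 < Real.sin θ := Real.sin_pos_of_pos_of_lt_pi h0 (by linarith)
  have hcc : 0 < Real.cos θ := Real.cos_pos_of_mem_Ioo ⟨by linarith, h1⟩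
  have hBpi : θ + 2 * θ * y < Real.pi := by nlinarith
  have hsB : 0 < Real.sin (θ + 2 * θ * y) := Real.sin_pos_of_pos_of_lt_pi (by positivity) hBpi
  have hKb : (1 + y) * b = θ + 2 * θ * y := by
    rw [hb]
    have : (1 + 1 * y) ≠ 0 := by positivity
    field_simp
    ring
  have hβ : (1 + y) * (2 * θ - b) = θ := by linear_combination (-1 : ℝ) * hKb
  have hb' : 2 * θ - θ * (1 + 1 * y)⁻¹ = b := hb.symm
  have e0 : (((((Real.cos θ) * (Real.cos θ)) * ((Real.sin θ)⁻¹)) * (1 * ((Real.sin θ)⁻¹))) + ((((1 * (Real.sin ((2 * θ) - (θ * (1⁻¹))))) * (1 * (Real.sin ((2 * θ) - (θ * (1⁻¹)))))) * (1 * (Real.cos (Real.pi - (2 * θ))))) * (((((Real.sin θ) - (θ * (Real.cos θ))) * (Real.sin θ)) + (((Real.sin θ) * (Real.cos θ)) * (θ - ((Real.sin θ) * (Real.cos θ)))))⁻¹))) = 1 := by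
    have a1 : 2 * θ - θ * (1 : ℝ)⁻¹ = θ := by ring
    rw [a1, Real.cos_pi_sub, Real.cos_two_mul]
    have a2 : (Real.sin θ - θ * Real.cos θ) * Real.sin θ + Real.sin θ * Real.cos θ *
        (θ - Real.sin θ * Real.cos θ) = Real.sin θ ^ 4 := by
      linear_combination (-Real.sin θ ^ 2) * Real.sin_sq_add_cos_sq θ
    rw [a2]
    have a3 := Real.sin_sq_add_cos_sq θ
    field_simp
    linear_combination (-1 : ℝ) * a3
  have e2 : ((Real.sin θ) * (1 * ((Real.sin θ)⁻¹))) = 1 := by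
    rw [one_mul, mul_inv_cancel₀ hs.ne']
  rw [e0] at hE
  rw [e2] at hE2
  rw [hb'] at hE
  have hA : Real.sin θ * Real.cos θ - Real.sin (θ + 2 * θ * y) * Real.cos (θ + 2 * θ * y) =
      Real.cos ((Real.pi - 2 * θ) + (-(2 * θ)) * y) * Real.sin (2 * θ * y) := by
    have b1 : (Real.pi - 2 * θ) + (-(2 * θ)) * y = Real.pi - ((θ + 2 * θ * y) + θ) := by ring
    have b2 : Real.sin (2 * θ * y) = Real.sin ((θ + 2 * θ * y) - θ) := by congr 1; ring
    rw [b1, b2, Real.cos_pi_sub]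
    exact trig_A _ _
  have hB : Real.cos (θ + 2 * θ * y) * Real.sin θ - Real.cos θ * Real.sin (θ + 2 * θ * y) =
      -Real.sin (2 * θ * y) := by
    have b2 : Real.sin (2 * θ * y) = Real.sin ((θ + 2 * θ * y) - θ) := by congr 1; ring
    rw [b2]
    exact trig_B _ _
  have r1 := rb2_S0 (θ := θ) (B := θ + 2 * θ * y) (s1 := Real.sin b) (K := 1 + 1 * y)
    hs.ne' hcc.ne' hsB.ne' hA hB
  have r2 := rb2_D0 (θ := θ) (K := 1 + 1 * y) hs.ne' hsB.ne' hB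
  have hv := Sf_eq (2 * θ * y)
  have hv2 := sin_eq_Sc (2 * θ * y)
  constructor
  · unfold S0 Rf Nf
    rw [hKb, hβ]
    have : S0 θ b (1 + y) = S0 θ b (1 + y) := rfl
    rw [hE] at r1
    have e1 : (1 + y) = 1 + 1 * y := by ring
    rw [e1]
    refine r1.trans ?_
    linear_combination hv + (-(g * y)) * hv2
  · unfold D0
    rw [hKb, hβ]
    rw [hE2] at r2
    have e1 : (1 + y) = 1 + 1 * y := by ring
    rw [e1]
    refine r2.trans ?_
    linear_combination hv + (-(k * y)) * hv2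

/-- the statement proved by the computation -/
private def QB2 (θ y : ℝ) : Prop :=
  5 / 4 ≤ θ → θ < Real.pi / 2 → 0 < y → y ≤ 1 → θ * (1 + 2 * y) < Real.pi / 2 * (1 + y) →
    0 ≤ S0 θ (2 * θ - θ * (1 + 1 * y)⁻¹) (1 + y) ∧ 0 ≤ S1 θ (2 * θ - θ * (1 + 1 * y)⁻¹) (1 + y)

private theorem fB2_box (A X : Iv) (h : b2P A X = true) (θ y : ℝ) (hθ : A.mem θ) (hy : X.mem y) :
    QB2 θ y := by
  intro h0 h1 h2 h3 h4
  obtain ⟨g, k, hE, hE2, t0, t1⟩ := b2P_sound hθ hy h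
  obtain ⟨e1, e2⟩ := fB2_aux (by linarith) h1 h2 h3 h4 rfl hE hE2
  have hy2 : 0 ≤ y ^ 2 := by positivity
  constructor
  · rw [e1]
    exact mul_nonneg hy2 t0
  · unfold S1
    rw [e1, e2]
    have := mul_nonneg hy2 t1
    have e3 : Real.cos θ / Real.sin θ = Real.cos θ * (Real.sin θ)⁻¹ := div_eq_mul_inv _ _
    rw [e3]
    linarith

private theorem ex_real {A C θ y : ℝ}
    (h6 : (1073741824 + C) * 1686629714 ≤ A * (1073741824 + 2 * C)) (hA : A ≤ θ * 1073741824)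
    (hC : C ≤ y * 1073741824) (hC0 : 0 ≤ C) (h0 : 5 / 4 ≤ θ)
    (h4 : θ * (1 + 2 * y) < Real.pi / 2 * (1 + y)) : False := by
  have hpi := Real.pi_lt_d20
  -- `θ (1 + 2 C) ≥ (π/2) (1 + C)` and monotone in `C`
  have h8 : A * (1073741824 + 2 * C) ≤ (θ * 1073741824) * (1073741824 + 2 * C) :=
    mul_le_mul_of_nonneg_right hA (by positivity)
  have h9 : Real.pi / 2 * 1073741824 ≤ 1686629714 := by
    linarith
  have h10 : (1073741824 + C) * (Real.pi / 2 * 1073741824) ≤ (1073741824 + C) * 1686629714 :=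
    mul_le_mul_of_nonneg_left h9 (by positivity)
  have h11 : (1073741824 + C) * (Real.pi / 2) ≤ θ * (1073741824 + 2 * C) := by linarith
  have h12 : 0 ≤ (2 * θ - Real.pi / 2) * (y * 1073741824 - C) :=
    mul_nonneg (by linarith) (by linarith)
  linarith

private theorem fB2_ex (a b c : Nat) (h : exB2 a b c = true) (θ y : ℝ) (hθ : Iv.mem ⟨a, b⟩ θ)
    (hy : (c : ℝ) ≤ y * 1073741824 + 68719476736) : QB2 θ y := by
  intro h0 h1 h2 h3 h4
  exfalso
  unfold exB2 at h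
  have h5 := ble_true h
  have h6 := (Nat.cast_le (α := ℝ)).2 h5
  rw [mul_cast, mul_cast, add_cast, add_cast, mul_cast] at h6
  have hC : ((Nat.sub c 68719476736 : Nat) : ℝ) ≤ y * 1073741824 :=
    sub_le_real (by positivity) (by rw [Nat.cast_ofNat]; linarith)
  have hA : ((Nat.sub a 68719476736 : Nat) : ℝ) ≤ θ * 1073741824 :=
    sub_le_real (by positivity) (by have := hθ.1; rw [Nat.cast_ofNat]; dsimp only at this; linarith)
  have hC0 : (0 : ℝ) ≤ ((Nat.sub c 68719476736 : Nat) : ℝ) := Nat.cast_nonneg _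
  have hA0 : (0 : ℝ) ≤ ((Nat.sub a 68719476736 : Nat) : ℝ) := Nat.cast_nonneg _
  simp only [Nat.cast_ofNat] at h6
  exact ex_real h6 hA hC hC0 h0 h4

/-- **Fact B2** -/
theorem factB2 {θ b : ℝ} (h0 : 5 / 4 ≤ θ) (h1 : θ < Real.pi / 2) (h2 : θ < b)
    (h3 : b < Real.pi / 2) :
    0 ≤ S0 θ b (θ / (2 * θ - b)) ∧ 0 ≤ S1 θ b (θ / (2 * θ - b)) := by
  have hpi := Real.pi_lt_d20
  have hd : 0 < 2 * θ - b := by linarith
  set y := (b - θ) / (2 * θ - b) with hy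
  have hy0 : 0 < y := div_pos (by linarith) hd
  have hyd : y * (2 * θ - b) = b - θ := div_mul_cancel₀ _ hd.ne'
  have hy1 : y ≤ 35 / 100 := by
    rw [hy, div_le_iff₀ hd]
    linarith
  have hK : θ / (2 * θ - b) = 1 + y := by
    rw [div_eq_iff hd.ne']
    linarith
  have hK0 : (1 + 1 * y) ≠ 0 := by positivity
  have hb : 2 * θ - θ * (1 + 1 * y)⁻¹ = b := by
    field_simp
    linarith
  have hc : θ * (1 + 2 * y) < Real.pi / 2 * (1 + y) := by
    have e : θ * (1 + 2 * y) = b * (1 + y) := by linarith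
    rw [e]
    exact mul_lt_mul_of_pos_right h3 (by linarith)
  have hQ := bis_sound (Q := QB2) fB2_ex fB2_box _ _ _ _ _ b2k θ y
    ⟨by push_cast; linarith, by push_cast; linarith⟩ ⟨by push_cast; linarith, by push_cast; linarith⟩
    h0 h1 hy0 (by linarith) hc
  rw [hK]
  rwa [hb] at hQ

end Pool.Agent.H13.IU
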