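import Pool.Agent.H13.IU.Ux

/-!
# Fact B2: the program (generated)
-/

namespace Pool.Agent.H13.IU

open Pool.Agent.H15.IA

def b2P (th X : Iv) : Bool :=
  sinK th fun s_1 =>
  cosK th fun c_2 =>
  linU c1 c1 X fun K_3 =>
  mulK c2 th fun i_4 =>
  linU th i_4 X fun B_5 =>
  invU K_3 fun u_6 =>
  cmulU th u_6 fun u_7 =>
  cstU i_4 fun u_8 =>
  subU u_8 u_7 fun u_9 =>
  subK piI i_4 fun i_10 =>
  negK i_4 fun i_11 =>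
  linU i_10 i_11 X fun W_12 =>
  sinU B_5 X fun S_13 =>
  cosU B_5 X fun C_14 =>
  sinU u_9 X fun z_15 =>
  cosU W_12 X fun w_16 =>
  mulU S_13 C_14 fun u_17 =>
  mulU B_5 C_14 fun u_18 =>
  subU S_13 u_18 fun N_19 =>
  subU B_5 u_17 fun u_20 =>
  mulU N_19 S_13 fun u_21 =>
  mulK s_1 c_2 fun i_22 =>
  cmulU i_22 u_20 fun u_23 =>
  addU u_21 u_23 fun D_24 =>
  invU D_24 fun u_25 =>
  invU S_13 fun u_26 =>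
  mulU K_3 u_26 fun u_27 =>
  mulK c_2 c_2 fun i_28 =>
  invK s_1 fun i_29 =>
  mulK i_28 i_29 fun i_30 =>
  cmulU i_30 u_27 fun u_31 =>
  mulU K_3 z_15 fun u_32 =>
  mulU u_32 u_32 fun u_33 =>
  mulU K_3 w_16 fun u_34 =>
  mulU u_33 u_34 fun u_35 =>
  mulU u_35 u_25 fun u_36 =>
  addU u_31 u_36 fun E_37 =>
  cmulU s_1 u_27 fun E_38 =>
  mulK i_4 X fun i_39 =>
  scI i_39 fun i_40 =>
  mulK i_4 i_40 fun i_41 =>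
  sfI i_39 fun i_42 =>
  sqK i_4 fun i_43 =>
  mulK i_43 i_39 fun i_44 =>
  mulK i_44 i_42 fun i_45 =>
  mulK i_41 E_37.d fun i_46 =>
  mulK i_41 E_38.d fun i_47 =>
  addK th i_22 fun i_48 =>
  addK i_48 i_45 fun i_49 =>
  subK i_49 i_46 fun i_50 =>
  subK th i_22 fun i_51 =>
  addK i_51 i_45 fun i_52 =>
  subK i_52 i_47 fun i_53 =>
  mulK c_2 i_29 fun i_54 =>
  sqK i_54 fun i_55 =>
  mulK cq i_55 fun i_56 =>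
  mulK i_56 i_53 fun i_57 =>
  addK i_50 i_57 fun i_58 =>
  br (Nat.ble 68719476736 i_50.lo) (br (Nat.ble 68719476736 i_58.lo) true false) false

theorem b2P_sound {th X : Iv} {θ x : ℝ} (hθ : th.mem θ) (hX : X.mem x)
    (h : b2P th X = true) :
    ∃ g k : ℝ, (((((Real.cos θ) * (Real.cos θ)) * ((Real.sin θ)⁻¹)) * ((1 + 1 * x) * ((Real.sin (θ + (2 * θ) * x))⁻¹))) + (((((1 + 1 * x) * (Real.sin ((2 * θ) - (θ * ((1 + 1 * x)⁻¹))))) * ((1 + 1 * x) * (Real.sin ((2 * θ) - (θ * ((1 + 1 * x)⁻¹)))))) * ((1 + 1 * x) * (Real.cos ((Real.pi - (2 * θ)) + (-(2 * θ)) * x)))) * (((((Real.sin (θ + (2 * θ) * x)) - ((θ + (2 * θ) * x) * (Real.cos (θ + (2 * θ) * x)))) * (Real.sin (θ + (2 * θ) * x))) + (((Real.sin θ) * (Real.cos θ)) * ((θ + (2 * θ) * x) - ((Real.sin (θ + (2 * θ) * x)) * (Real.cos (θ + (2 * θ) * x))))))⁻¹))) =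 (((((Real.cos θ) * (Real.cos θ)) * ((Real.sin θ)⁻¹)) * (1 * ((Real.sin θ)⁻¹))) + ((((1 * (Real.sin ((2 * θ) - (θ * (1⁻¹))))) * (1 * (Real.sin ((2 * θ) - (θ * (1⁻¹)))))) * (1 * (Real.cos (Real.pi - (2 * θ))))) * (((((Real.sin θ) - (θ * (Real.cos θ))) * (Real.sin θ)) + (((Real.sin θ) * (Real.cos θ)) * (θ - ((Real.sin θ) * (Real.cos θ)))))⁻¹))) + g * x ∧ ((Real.sin θ) * ((1 + 1 * x) * ((Real.sin (θ + (2 * θ) * x))⁻¹))) = ((Real.sin θ) * (1 * ((Real.sin θ)⁻¹))) + k * x ∧ 0 ≤ (((θ + ((Real.sin θ) * (Real.cos θ))) + ((((2 * θ) ^ 2) * ((2 * θ) * x)) * (Sf ((2 * θ) * x)))) - (((2 * θ) * (Sc ((2 * θ) * x))) * g)) ∧ 0 ≤ ((((θ + ((Real.sin θ) * (Real.cos θ))) + ((((2 * θ) ^ 2) * ((2 * θ) * x)) * (Sf ((2 * θ) * x)))) - (((2 * θ) * (Sc ((2 * θ) * x))) * g)) + (((16 / 25) * (((Real.cos θ) * ((Real.sin θ)⁻¹)) ^ 2))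 * (((θ - ((Real.sin θ) * (Real.cos θ))) + ((((2 * θ) ^ 2) * ((2 * θ) * x)) * (Sf ((2 * θ) * x)))) - (((2 * θ) * (Sc ((2 * θ) * x))) * k)))) := by
  unfold b2P at h
  obtain ⟨s_1, ms_1, h⟩ := sinK_sound hθ h
  obtain ⟨c_2, mc_2, h⟩ := cosK_sound hθ h
  obtain ⟨K_3, mK_3, h⟩ := linU_sound hX c1_mem c1_mem h
  obtain ⟨i_4, mi_4, h⟩ := mulK_sound c2_mem hθ h
  obtain ⟨B_5, mB_5, h⟩ := linU_sound hX hθ mi_4 h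
  obtain ⟨u_6, mu_6, h, _, _⟩ := invU_sound mK_3 h
  obtain ⟨u_7, mu_7, h⟩ := cmulU_sound hθ mu_6 h
  obtain ⟨u_8, mu_8, h⟩ := cstU_sound (x := x) mi_4 h
  obtain ⟨u_9, mu_9, h⟩ := subU_sound mu_8 mu_7 h
  obtain ⟨i_10, mi_10, h⟩ := subK_sound piI_mem mi_4 h
  obtain ⟨i_11, mi_11, h⟩ := negK_sound mi_4 h
  obtain ⟨W_12, mW_12, h⟩ := linU_sound hX mi_10 mi_11 h
  obtain ⟨S_13, mS_13, h⟩ := sinU_sound hX mB_5 h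
  obtain ⟨C_14, mC_14, h⟩ := cosU_sound hX mB_5 h
  obtain ⟨z_15, mz_15, h⟩ := sinU_sound hX mu_9 h
  obtain ⟨w_16, mw_16, h⟩ := cosU_sound hX mW_12 h
  obtain ⟨u_17, mu_17, h⟩ := mulU_sound mS_13 mC_14 h
  obtain ⟨u_18, mu_18, h⟩ := mulU_sound mB_5 mC_14 h
  obtain ⟨N_19, mN_19, h⟩ := subU_sound mS_13 mu_18 h
  obtain ⟨u_20, mu_20, h⟩ := subU_sound mB_5 mu_17 h
  obtain ⟨u_21, mu_21, h⟩ := mulU_sound mN_19 mS_13 h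
  obtain ⟨i_22, mi_22, h⟩ := mulK_sound ms_1 mc_2 h
  obtain ⟨u_23, mu_23, h⟩ := cmulU_sound mi_22 mu_20 h
  obtain ⟨D_24, mD_24, h⟩ := addU_sound mu_21 mu_23 h
  obtain ⟨u_25, mu_25, h, _, _⟩ := invU_sound mD_24 h
  obtain ⟨u_26, mu_26, h, _, _⟩ := invU_sound mS_13 h
  obtain ⟨u_27, mu_27, h⟩ := mulU_sound mK_3 mu_26 h
  obtain ⟨i_28, mi_28, h⟩ := mulK_sound mc_2 mc_2 h
  obtain ⟨i_29, mi_29, h, _⟩ := invK_sound ms_1 h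
  obtain ⟨i_30, mi_30, h⟩ := mulK_sound mi_28 mi_29 h
  obtain ⟨u_31, mu_31, h⟩ := cmulU_sound mi_30 mu_27 h
  obtain ⟨u_32, mu_32, h⟩ := mulU_sound mK_3 mz_15 h
  obtain ⟨u_33, mu_33, h⟩ := mulU_sound mu_32 mu_32 h
  obtain ⟨u_34, mu_34, h⟩ := mulU_sound mK_3 mw_16 h
  obtain ⟨u_35, mu_35, h⟩ := mulU_sound mu_33 mu_34 h
  obtain ⟨u_36, mu_36, h⟩ := mulU_sound mu_35 mu_25 h
  obtain ⟨E_37, mE_37, h⟩ := addU_sound mu_31 mu_36 h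
  obtain ⟨E_38, mE_38, h⟩ := cmulU_sound ms_1 mu_27 h
  obtain ⟨i_39, mi_39, h⟩ := mulK_sound mi_4 hX h
  obtain ⟨i_40, mi_40, h⟩ := scI_sound mi_39 h
  obtain ⟨i_41, mi_41, h⟩ := mulK_sound mi_4 mi_40 h
  obtain ⟨i_42, mi_42, h⟩ := sfI_sound mi_39 h
  obtain ⟨i_43, mi_43, h⟩ := sqK_sound mi_4 h
  obtain ⟨i_44, mi_44, h⟩ := mulK_sound mi_43 mi_39 h
  obtain ⟨i_45, mi_45, h⟩ := mulK_sound mi_44 mi_42 h
  obtain ⟨_, _, g, mg, eg⟩ := mE_37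
  obtain ⟨_, _, k, mk, ek⟩ := mE_38
  obtain ⟨i_46, mi_46, h⟩ := mulK_sound mi_41 mg h
  obtain ⟨i_47, mi_47, h⟩ := mulK_sound mi_41 mk h
  obtain ⟨i_48, mi_48, h⟩ := addK_sound hθ mi_22 h
  obtain ⟨i_49, mi_49, h⟩ := addK_sound mi_48 mi_45 h
  obtain ⟨i_50, mi_50, h⟩ := subK_sound mi_49 mi_46 h
  obtain ⟨i_51, mi_51, h⟩ := subK_sound hθ mi_22 h
  obtain ⟨i_52, mi_52, h⟩ := addK_sound mi_51 mi_45 h
  obtain ⟨i_53, mi_53, h⟩ := subK_sound mi_52 mi_47 h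
  obtain ⟨i_54, mi_54, h⟩ := mulK_sound mc_2 mi_29 h
  obtain ⟨i_55, mi_55, h⟩ := sqK_sound mi_54 h
  obtain ⟨i_56, mi_56, h⟩ := mulK_sound cq_mem mi_55 h
  obtain ⟨i_57, mi_57, h⟩ := mulK_sound mi_56 mi_53 h
  obtain ⟨i_58, mi_58, h⟩ := addK_sound mi_50 mi_57 h
  obtain ⟨h0, h⟩ := br_f h
  obtain ⟨h1, h⟩ := br_f h
  exact ⟨g, k, eg, ek, nonneg_of_test h0 mi_50, nonneg_of_test h1 mi_58⟩

end Pool.Agent.H13.IU
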