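import Pool.Agent.H13.IU.Ux

/-!
# Adaptive bisection of two dimensional boxes
-/

namespace Pool.Agent.H13.IU

open Pool.Agent.H15.IA

/-- `ex a b c`: exclusion test for the box `[a,b] × [c,d]`; `f`: the test on a box -/
def bis (ex : Nat → Nat → Nat → Bool) (f : Iv → Iv → Bool) (n : Nat) : Nat → Nat → Nat → Nat → Bool :=
  Nat.rec (fun _ _ _ _ => false)
    (fun _ ih a b c d =>
      br (ex a b c) true (br (f (Iv.mk a b) (Iv.mk c d)) true
        (br (Nat.ble (Nat.sub d c) (Nat.mul 2 (Nat.sub b a)))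
          (fN (Nat.div (Nat.add a b) 2) fun m => br (ih a m c d) (ih m b c d) false)
          (fN (Nat.div (Nat.add c d) 2) fun m => br (ih a b c m) (ih a b m d) false)))) n

theorem split_mem {a b m : Nat} {x : ℝ} (h : Iv.mem ⟨a, b⟩ x) :
    Iv.mem ⟨a, m⟩ x ∨ Iv.mem ⟨m, b⟩ x := by
  obtain ⟨h1, h2⟩ := h
  rcases le_total (x * 1073741824 + 68719476736) (m : ℝ) with h | h
  · exact Or.inl ⟨h1, h⟩
  · exact Or.inr ⟨h, h2⟩

theorem bis_sound {ex : Nat → Nat → Nat → Bool} {f : Iv → Iv → Bool} {Q : ℝ → ℝ → Prop}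
    (hex : ∀ a b c : Nat, ex a b c = true → ∀ θ x : ℝ, Iv.mem ⟨a, b⟩ θ →
      (c : ℝ) ≤ x * 1073741824 + 68719476736 → Q θ x)
    (hf : ∀ A X : Iv, f A X = true → ∀ θ x : ℝ, A.mem θ → X.mem x → Q θ x) :
    ∀ (n a b c d : Nat), bis ex f n a b c d = true → ∀ θ x : ℝ, Iv.mem ⟨a, b⟩ θ →
      Iv.mem ⟨c, d⟩ x → Q θ x := by
  intro n
  induction n with
  | zero =>
    intro a b c d h
    exact absurd h (by simp [bis])
  | succ n ih =>
    intro a b c d h θ x hθ hx
    have h' : br (ex a b c) true (br (f (Iv.mk a b) (Iv.mk c d)) true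
        (br (Nat.ble (Nat.sub d c) (Nat.mul 2 (Nat.sub b a)))
          (fN (Nat.div (Nat.add a b) 2) fun m => br (bis ex f n a m c d) (bis ex f n m b c d) false)
          (fN (Nat.div (Nat.add c d) 2) fun m => br (bis ex f n a b c m) (bis ex f n a b m d)
            false))) = true := h
    rcases br_iff.1 h' with ⟨h1, _⟩ | ⟨_, h'⟩
    · exact hex a b c h1 θ x hθ hx.1
    · rcases br_iff.1 h' with ⟨h1, _⟩ | ⟨_, h'⟩
      · exact hf _ _ h1 θ x hθ hx
      · rcases br_iff.1 h' with ⟨_, h'⟩ | ⟨_, h'⟩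
        · rw [fN_eq] at h'
          obtain ⟨h2, h3⟩ := br_f h'
          rcases split_mem (m := Nat.div (Nat.add a b) 2) hθ with h4 | h4
          · exact ih _ _ _ _ h2 θ x h4 hx
          · exact ih _ _ _ _ h3 θ x h4 hx
        · rw [fN_eq] at h'
          obtain ⟨h2, h3⟩ := br_f h'
          rcases split_mem (m := Nat.div (Nat.add c d) 2) hx with h4 | h4
          · exact ih _ _ _ _ h2 θ x hθ h4
          · exact ih _ _ _ _ h3 θ x hθ h4

theorem sub_le_real {a n : Nat} {v : ℝ} (h0 : 0 ≤ v) (h : (a : ℝ) - n ≤ v) :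
    ((Nat.sub a n : Nat) : ℝ) ≤ v := by
  rcases le_total n a with h7 | h7
  · rw [sub_cast h7]
    exact h
  · have : Nat.sub a n = 0 := Nat.sub_eq_zero_of_le h7
    rw [this]
    simpa using h0

end Pool.Agent.H13.IU
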