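import Pool.Agent.H15.IA.Trig

/-!
# `sinc` and `(v - sin v) / v^3` for the kernel interval arithmetic
-/

namespace Pool.Agent.H13.IU

open Pool.Agent.H15.IA

theorem mono0 {g g' : ℝ → ℝ} (h : ∀ x, HasDerivAt g (g' x) x) (h0 : g 0 = 0)
    (hg : ∀ x, 0 ≤ x → 0 ≤ g' x) (x : ℝ) (hx : 0 ≤ x) : 0 ≤ g x := by
  have hm : MonotoneOn g (Set.Ici 0) := by
    apply monotoneOn_of_deriv_nonneg (convex_Ici 0)
    · exact fun y _ => (h y).continuousAt.continuousWithinAt
    · exact fun y _ => (h y).differentiableAt.differentiableWithinAt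
    · intro y hy
      rw [interior_Ici] at hy
      rw [(h y).deriv]
      exact hg y (le_of_lt hy)
  have := hm (Set.mem_Ici.2 le_rfl) (Set.mem_Ici.2 hx) hx
  rwa [h0] at this

theorem sin_t1 (x : ℝ) (hx : 0 ≤ x) : 0 ≤ x - Real.sin x :=
  mono0 (g := fun x => x - Real.sin x) (g' := fun x => 1 - Real.cos x)
    (fun x => (hasDerivAt_id x).sub (Real.hasDerivAt_sin x)) (by simp)
    (fun x _ => by linarith [Real.cos_le_one x]) x hx

theorem cos_t2 (x : ℝ) (hx : 0 ≤ x) : 0 ≤ Real.cos x - 1 + x ^ 2 / 2 := by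
  refine mono0 (g := fun x => Real.cos x - 1 + x ^ 2 / 2) (g' := fun x => x - Real.sin x)
    (fun x => ?_) (by simp) sin_t1 x hx
  have := ((Real.hasDerivAt_cos x).sub_const 1).add ((hasDerivAt_pow 2 x).div_const 2)
  refine this.congr_deriv ?_
  norm_num
  ring

theorem sin_t3 (x : ℝ) (hx : 0 ≤ x) : 0 ≤ Real.sin x - x + x ^ 3 / 6 := by
  refine mono0 (g := fun x => Real.sin x - x + x ^ 3 / 6)
    (g' := fun x => Real.cos x - 1 + x ^ 2 / 2) (fun x => ?_) (by simp) cos_t2 x hx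
  have := ((Real.hasDerivAt_sin x).sub (hasDerivAt_id x)).add ((hasDerivAt_pow 3 x).div_const 6)
  refine this.congr_deriv ?_
  norm_num
  ring

theorem cos_t4 (x : ℝ) (hx : 0 ≤ x) : 0 ≤ 1 - x ^ 2 / 2 + x ^ 4 / 24 - Real.cos x := by
  refine mono0 (g := fun x => 1 - x ^ 2 / 2 + x ^ 4 / 24 - Real.cos x)
    (g' := fun x => Real.sin x - x + x ^ 3 / 6) (fun x => ?_) (by simp) sin_t3 x hx
  have := (((hasDerivAt_pow 2 x).div_const 2).const_sub 1).add ((hasDerivAt_pow 4 x).div_const 24)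
  have := this.sub (Real.hasDerivAt_cos x)
  refine this.congr_deriv ?_
  norm_num
  ring

theorem sin_t5 (x : ℝ) (hx : 0 ≤ x) : 0 ≤ x - x ^ 3 / 6 + x ^ 5 / 120 - Real.sin x := by
  refine mono0 (g := fun x => x - x ^ 3 / 6 + x ^ 5 / 120 - Real.sin x)
    (g' := fun x => 1 - x ^ 2 / 2 + x ^ 4 / 24 - Real.cos x) (fun x => ?_) (by simp) cos_t4 x hx
  have := ((hasDerivAt_id x).sub ((hasDerivAt_pow 3 x).div_const 6)).add
    ((hasDerivAt_pow 5 x).div_const 120)
  have := this.sub (Real.hasDerivAt_sin x)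
  refine this.congr_deriv ?_
  norm_num
  ring

theorem cos_t6 (x : ℝ) (hx : 0 ≤ x) :
    0 ≤ Real.cos x - 1 + x ^ 2 / 2 - x ^ 4 / 24 + x ^ 6 / 720 := by
  refine mono0 (g := fun x => Real.cos x - 1 + x ^ 2 / 2 - x ^ 4 / 24 + x ^ 6 / 720)
    (g' := fun x => x - x ^ 3 / 6 + x ^ 5 / 120 - Real.sin x) (fun x => ?_) (by simp) sin_t5 x hx
  have := ((((Real.hasDerivAt_cos x).sub_const 1).add ((hasDerivAt_pow 2 x).div_const 2)).sub
    ((hasDerivAt_pow 4 x).div_const 24)).add ((hasDerivAt_pow 6 x).div_const 720)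
  refine this.congr_deriv ?_
  norm_num
  ring

theorem sin_t7 (x : ℝ) (hx : 0 ≤ x) :
    0 ≤ Real.sin x - x + x ^ 3 / 6 - x ^ 5 / 120 + x ^ 7 / 5040 := by
  refine mono0 (g := fun x => Real.sin x - x + x ^ 3 / 6 - x ^ 5 / 120 + x ^ 7 / 5040)
    (g' := fun x => Real.cos x - 1 + x ^ 2 / 2 - x ^ 4 / 24 + x ^ 6 / 720) (fun x => ?_)
    (by simp) cos_t6 x hx
  have := ((((Real.hasDerivAt_sin x).sub (hasDerivAt_id x)).add
    ((hasDerivAt_pow 3 x).div_const 6)).sub
    ((hasDerivAt_pow 5 x).div_const 120)).add ((hasDerivAt_pow 7 x).div_const 5040)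
  refine this.congr_deriv ?_
  norm_num
  ring

theorem cos_t8 (x : ℝ) (hx : 0 ≤ x) :
    0 ≤ 1 - x ^ 2 / 2 + x ^ 4 / 24 - x ^ 6 / 720 + x ^ 8 / 40320 - Real.cos x := by
  refine mono0 (g := fun x => 1 - x ^ 2 / 2 + x ^ 4 / 24 - x ^ 6 / 720 + x ^ 8 / 40320 - Real.cos x)
    (g' := fun x => Real.sin x - x + x ^ 3 / 6 - x ^ 5 / 120 + x ^ 7 / 5040) (fun x => ?_)
    (by simp) sin_t7 x hx
  have := (((((hasDerivAt_pow 2 x).div_const 2).const_sub 1).add
    ((hasDerivAt_pow 4 x).div_const 24)).sub ((hasDerivAt_pow 6 x).div_const 720)).add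
    ((hasDerivAt_pow 8 x).div_const 40320)
  have := this.sub (Real.hasDerivAt_cos x)
  refine this.congr_deriv ?_
  norm_num
  ring

theorem sin_t9 (x : ℝ) (hx : 0 ≤ x) :
    0 ≤ x - x ^ 3 / 6 + x ^ 5 / 120 - x ^ 7 / 5040 + x ^ 9 / 362880 - Real.sin x := by
  refine mono0
    (g := fun x => x - x ^ 3 / 6 + x ^ 5 / 120 - x ^ 7 / 5040 + x ^ 9 / 362880 - Real.sin x)
    (g' := fun x => 1 - x ^ 2 / 2 + x ^ 4 / 24 - x ^ 6 / 720 + x ^ 8 / 40320 - Real.cos x)
    (fun x => ?_) (by simp) cos_t8 x hx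
  have := ((((hasDerivAt_id x).sub ((hasDerivAt_pow 3 x).div_const 6)).add
    ((hasDerivAt_pow 5 x).div_const 120)).sub ((hasDerivAt_pow 7 x).div_const 5040)).add
    ((hasDerivAt_pow 9 x).div_const 362880)
  have := this.sub (Real.hasDerivAt_sin x)
  refine this.congr_deriv ?_
  norm_num
  ring

/-- `(v - sin v) / v^3` -/
noncomputable def Sf (v : ℝ) : ℝ := if v = 0 then 1 / 6 else (v - Real.sin v) / v ^ 3

/-- `sin v / v` -/
noncomputable def Sc (v : ℝ) : ℝ := 1 - v ^ 2 * Sf v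

theorem sin_eq_Sc (v : ℝ) : Real.sin v = v * Sc v := by
  unfold Sc Sf
  split_ifs with h
  · simp [h]
  · field_simp
    ring

theorem Sf_eq (v : ℝ) : v - Real.sin v = v ^ 3 * Sf v := by
  rw [sin_eq_Sc, Sc]; ring

theorem Sf_neg (v : ℝ) : Sf (-v) = Sf v := by
  unfold Sf
  by_cases h : v = 0
  · simp [h]
  · have h' : -v ≠ 0 := neg_ne_zero.2 h
    rw [if_neg h, if_neg h', Real.sin_neg, div_eq_div_iff (by positivity) (by positivity)]
    ring

theorem Sf_bd {v : ℝ} (hv : v ^ 2 ≤ 4) :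
    1 / 6 - v ^ 2 * (1 / 120 - v ^ 2 * (1 / 5040)) - 64 / 362880 ≤ Sf v ∧
    Sf v ≤ 1 / 6 - v ^ 2 * (1 / 120 - v ^ 2 * (1 / 5040)) := by
  have key : ∀ v : ℝ, 0 < v → v ^ 2 ≤ 4 →
      1 / 6 - v ^ 2 * (1 / 120 - v ^ 2 * (1 / 5040)) - 64 / 362880 ≤ Sf v ∧
      Sf v ≤ 1 / 6 - v ^ 2 * (1 / 120 - v ^ 2 * (1 / 5040)) := by
    intro v h0 hv
    have h7 := sin_t7 v h0.le
    have h9 := sin_t9 v h0.le
    unfold Sf
    rw [if_neg h0.ne']
    have h3 : 0 < v ^ 3 := by positivity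
    constructor
    · rw [le_div_iff₀ h3]
      have h6 : v ^ 6 ≤ 64 := by
        have : v ^ 6 = (v ^ 2) ^ 3 := by ring
        rw [this]
        calc (v ^ 2) ^ 3 ≤ 4 ^ 3 := pow_le_pow_left₀ (by positivity) hv 3
          _ = 64 := by norm_num
      have h8 := mul_le_mul_of_nonneg_left h6 h3.le
      nlinarith
    · rw [div_le_iff₀ h3]
      nlinarith
  rcases lt_trichotomy v 0 with h | h | h
  · have := key (-v) (by linarith) (by nlinarith)
    rw [Sf_neg, neg_sq] at this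
    exact this
  · subst h
    have e : Sf 0 = 1 / 6 := by simp [Sf]
    rw [e]
    norm_num
  · exact key v h hv

/-! ### the interval functions -/

@[reducible] def c0 : Iv := ⟨68719476736, 68719476736⟩
@[reducible] def c1 : Iv := ⟨69793218560, 69793218560⟩
@[reducible] def c2 : Iv := ⟨70866960384, 70866960384⟩
@[reducible] def c12 : Iv := ⟨69256347648, 69256347648⟩
@[reducible] def c32 : Iv := ⟨70330089472, 70330089472⟩
@[reducible] def c14 : Iv := ⟨68987912192, 68987912192⟩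
@[reducible] def cq : Iv := ⟨69406671503, 69406671504⟩
@[reducible] def c54 : Iv := ⟨70061654016, 70061654016⟩
@[reducible] def c34 : Iv := ⟨69524783104, 69524783104⟩
@[reducible] def c116 : Iv := ⟨68786585600, 68786585600⟩
@[reducible] def c18 : Iv := ⟨69492570849, 69492570850⟩

theorem c0_mem : c0.mem 0 := by constructor <;> norm_num [c0]
theorem c1_mem : c1.mem 1 := by constructor <;> norm_num [c1]
theorem c2_mem : c2.mem 2 := by constructor <;> norm_num [c2]
theorem c12_mem : c12.mem (1 / 2) := by constructor <;> norm_num [c12]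
theorem c32_mem : c32.mem (3 / 2) := by constructor <;> norm_num [c32]
theorem c14_mem : c14.mem (1 / 4) := by constructor <;> norm_num [c14]
theorem cq_mem : cq.mem (16 / 25) := by constructor <;> norm_num [cq]
theorem c54_mem : c54.mem (5 / 4) := by constructor <;> norm_num [c54]
theorem c34_mem : c34.mem (3 / 4) := by constructor <;> norm_num [c34]
theorem c116_mem : c116.mem (1 / 16) := by constructor <;> norm_num [c116]
theorem c18_mem : c18.mem (18 / 25) := by constructor <;> norm_num [c18]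

/-- enclosure of `Sf` from an enclosure of the square of the argument -/
def sfK (z : Iv) (k : Iv → Bool) : Bool :=
  br (Nat.ble z.hi 73014444032)
    (mulK z ⟨68719689779, 68719689781⟩ fun u => subK ⟨68728424584, 68728424585⟩ u fun v =>
      mulK z v fun w => subK ⟨68898433706, 68898433707⟩ w fun q =>
        fN (Nat.sub q.lo 189374) fun l => k (Iv.mk l q.hi)) false

theorem sfK_sound {z : Iv} {k : Iv → Bool} {v : ℝ} (hz : z.mem (v ^ 2)) (h : sfK z k = true) :
    ∃ c : Iv, c.mem (Sf v) ∧ k c = true := by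
  unfold sfK at h
  obtain ⟨h0, h⟩ := br_f h
  have h0' : (z.hi : ℝ) ≤ 73014444032 := by exact_mod_cast ble_true h0
  have hv : v ^ 2 ≤ 4 := by
    have := hz.2
    linarith
  have m1 : Iv.mem ⟨68719689779, 68719689781⟩ (1 / 5040) := by constructor <;> norm_num
  have m2 : Iv.mem ⟨68728424584, 68728424585⟩ (1 / 120) := by constructor <;> norm_num
  have m3 : Iv.mem ⟨68898433706, 68898433707⟩ (1 / 6) := by constructor <;> norm_num
  obtain ⟨u, hu, h⟩ := mulK_sound hz m1 h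
  obtain ⟨w, hw, h⟩ := subK_sound m2 hu h
  obtain ⟨p, hp, h⟩ := mulK_sound hz hw h
  obtain ⟨q, hq, h⟩ := subK_sound m3 hp h
  rw [fN_eq] at h
  obtain ⟨b1, b2⟩ := Sf_bd hv
  refine ⟨_, ⟨?_, ?_⟩, h⟩
  · dsimp only
    have h5 : ((Nat.sub q.lo 189374 : Nat) : ℝ) ≤ (q.lo : ℝ) - 189374 ∨
        ((Nat.sub q.lo 189374 : Nat) : ℝ) = 0 := by
      rcases le_total 189374 q.lo with h6 | h6
      · left
        rw [sub_cast h6]
        norm_num
      · right
        have : Nat.sub q.lo 189374 = 0 := Nat.sub_eq_zero_of_le h6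
        rw [this]
        norm_num
    rcases h5 with h5 | h5
    · refine h5.trans ?_
      have := hq.1
      linarith
    · rw [h5]
      have h7 : 0 ≤ 1 / 6 - v ^ 2 * (1 / 120 - v ^ 2 * (1 / 5040)) - 64 / 362880 + 1 := by
        nlinarith [sq_nonneg v]
      linarith
  · dsimp only
    have := hq.2
    linarith

/-- enclosure of `Sf` -/
def sfI (a : Iv) (k : Iv → Bool) : Bool := sqK a fun z => sfK z k

theorem sfI_sound {a : Iv} {k : Iv → Bool} {v : ℝ} (ha : a.mem v) (h : sfI a k = true) :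
    ∃ c : Iv, c.mem (Sf v) ∧ k c = true := by
  obtain ⟨z, hz, h⟩ := sqK_sound ha h
  exact sfK_sound hz h

/-- enclosure of `sin v / v` -/
def scI (a : Iv) (k : Iv → Bool) : Bool :=
  sqK a fun z => sfK z fun q => mulK z q fun w => subK c1 w k

theorem scI_sound {a : Iv} {k : Iv → Bool} {v : ℝ} (ha : a.mem v) (h : scI a k = true) :
    ∃ c : Iv, c.mem (Sc v) ∧ k c = true := by
  obtain ⟨z, hz, h⟩ := sqK_sound ha h
  obtain ⟨q, hq, h⟩ := sfK_sound hz h
  obtain ⟨w, hw, h⟩ := mulK_sound hz hq h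
  exact subK_sound c1_mem hw h

end Pool.Agent.H13.IU
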