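import Pool.Agent.H13.IU.Sn

/-!
# First order expansions `F = f0 + f1 x` over the kernel interval arithmetic

`u.mem x f F`: `f` lies in `u.z`, `F` in `u.r` and `F = f + f1 * x` with `f1` in `u.d`. All rules are
exact algebraic identities for `f1`, so the enclosures converge with the size of the box.
-/

namespace Pool.Agent.H13.IU

open Pool.Agent.H15.IA

structure Uv where
  z : Iv
  d : Iv
  r : Iv

def Uv.mem (u : Uv) (x f F : ℝ) : Prop :=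
  u.z.mem f ∧ u.r.mem F ∧ ∃ g : ℝ, u.d.mem g ∧ F = f + g * x

/-- constants -/
def cstU (a : Iv) (k : Uv → Bool) : Bool := k (Uv.mk a c0 a)

/-- `α + γ x` -/
def linU (a g X : Iv) (k : Uv → Bool) : Bool :=
  mulK g X fun p => addK a p fun r => k (Uv.mk a g r)

def addU (a b : Uv) (k : Uv → Bool) : Bool :=
  addK a.z b.z fun z => addK a.d b.d fun d => addK a.r b.r fun r => k (Uv.mk z d r)

def subU (a b : Uv) (k : Uv → Bool) : Bool :=
  subK a.z b.z fun z => subK a.d b.d fun d => subK a.r b.r fun r => k (Uv.mk z d r)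

def mulU (a b : Uv) (k : Uv → Bool) : Bool :=
  mulK a.z b.z fun z => mulK a.d b.r fun d1 => mulK a.z b.d fun d2 => addK d1 d2 fun d =>
    mulK a.r b.r fun r => k (Uv.mk z d r)

/-- product with a constant -/
def cmulU (a : Iv) (b : Uv) (k : Uv → Bool) : Bool :=
  mulK a b.z fun z => mulK a b.d fun d => mulK a b.r fun r => k (Uv.mk z d r)

/-- product with `x` -/
def xmulU (a : Uv) (X : Iv) (k : Uv → Bool) : Bool :=
  mulK a.r X fun r => k (Uv.mk c0 a.r r)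

def invU (a : Uv) (k : Uv → Bool) : Bool :=
  invK a.z fun z => invK a.r fun r => mulK z r fun p => mulK a.d p fun q => negK q fun d =>
    k (Uv.mk z d r)

def sinU (a : Uv) (X : Iv) (k : Uv → Bool) : Bool :=
  mulK a.d X fun v => mulK c12 v fun w => addK a.z w fun m => cosK m fun c => scI w fun e =>
    mulK c e fun p => mulK a.d p fun d => sinK a.z fun z => sinK a.r fun r => k (Uv.mk z d r)

def cosU (a : Uv) (X : Iv) (k : Uv → Bool) : Bool :=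
  mulK a.d X fun v => mulK c12 v fun w => addK a.z w fun m => sinK m fun c => scI w fun e =>
    mulK c e fun p => mulK a.d p fun q => negK q fun d => cosK a.z fun z => cosK a.r fun r =>
      k (Uv.mk z d r)

/-- `sin (G x) / (G x)` -/
def scU (a : Uv) (X : Iv) (k : Uv → Bool) : Bool :=
  mulK a.r X fun v => sqK v fun z => sfK z fun q => mulK z q fun w => subK c1 w fun r =>
    mulK a.r v fun e => mulK e q fun f => negK f fun d => k (Uv.mk c1 d r)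

variable {a b : Uv} {k : Uv → Bool} {x f g F G : ℝ} {X : Iv}

theorem cstU_sound {a : Iv} {α : ℝ} (ha : a.mem α) (h : cstU a k = true) :
    ∃ c : Uv, c.mem x α α ∧ k c = true :=
  ⟨_, ⟨ha, ha, 0, c0_mem, by ring⟩, h⟩

theorem linU_sound {a g : Iv} {α γ : ℝ} (hX : X.mem x) (ha : a.mem α) (hg : g.mem γ)
    (h : linU a g X k = true) : ∃ c : Uv, c.mem x α (α + γ * x) ∧ k c = true := by
  obtain ⟨p, hp, h⟩ := mulK_sound hg hX h
  obtain ⟨r, hr, h⟩ := addK_sound ha hp h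
  exact ⟨_, ⟨ha, hr, γ, hg, rfl⟩, h⟩

theorem addU_sound (ha : a.mem x f F) (hb : b.mem x g G) (h : addU a b k = true) :
    ∃ c : Uv, c.mem x (f + g) (F + G) ∧ k c = true := by
  obtain ⟨a1, a2, u, a3, a4⟩ := ha
  obtain ⟨b1, b2, v, b3, b4⟩ := hb
  obtain ⟨z, hz, h⟩ := addK_sound a1 b1 h
  obtain ⟨d, hd, h⟩ := addK_sound a3 b3 h
  obtain ⟨r, hr, h⟩ := addK_sound a2 b2 h
  exact ⟨_, ⟨hz, hr, _, hd, by rw [a4, b4]; ring⟩, h⟩

theorem subU_sound (ha : a.mem x f F) (hb : b.mem x g G) (h : subU a b k = true) :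
    ∃ c : Uv, c.mem x (f - g) (F - G) ∧ k c = true := by
  obtain ⟨a1, a2, u, a3, a4⟩ := ha
  obtain ⟨b1, b2, v, b3, b4⟩ := hb
  obtain ⟨z, hz, h⟩ := subK_sound a1 b1 h
  obtain ⟨d, hd, h⟩ := subK_sound a3 b3 h
  obtain ⟨r, hr, h⟩ := subK_sound a2 b2 h
  exact ⟨_, ⟨hz, hr, _, hd, by rw [a4, b4]; ring⟩, h⟩

theorem mulU_sound (ha : a.mem x f F) (hb : b.mem x g G) (h : mulU a b k = true) :
    ∃ c : Uv, c.mem x (f * g) (F * G) ∧ k c = true := by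
  obtain ⟨a1, a2, u, a3, a4⟩ := ha
  obtain ⟨b1, b2, v, b3, b4⟩ := hb
  obtain ⟨z, hz, h⟩ := mulK_sound a1 b1 h
  obtain ⟨d1, hd1, h⟩ := mulK_sound a3 b2 h
  obtain ⟨d2, hd2, h⟩ := mulK_sound a1 b3 h
  obtain ⟨d, hd, h⟩ := addK_sound hd1 hd2 h
  obtain ⟨r, hr, h⟩ := mulK_sound a2 b2 h
  refine ⟨_, ⟨hz, hr, _, hd, ?_⟩, h⟩
  have e1 : F * G = f * G + u * G * x := by rw [a4]; ring
  rw [e1]
  have e2 : f * G = f * g + f * v * x := by rw [b4]; ring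
  rw [e2]
  ring

theorem cmulU_sound {a : Iv} {α : ℝ} (ha : a.mem α) (hb : b.mem x g G)
    (h : cmulU a b k = true) : ∃ c : Uv, c.mem x (α * g) (α * G) ∧ k c = true := by
  obtain ⟨b1, b2, v, b3, b4⟩ := hb
  obtain ⟨z, hz, h⟩ := mulK_sound ha b1 h
  obtain ⟨d, hd, h⟩ := mulK_sound ha b3 h
  obtain ⟨r, hr, h⟩ := mulK_sound ha b2 h
  exact ⟨_, ⟨hz, hr, _, hd, by rw [b4]; ring⟩, h⟩

theorem xmulU_sound (hX : X.mem x) (ha : a.mem x f F) (h : xmulU a X k = true) :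
    ∃ c : Uv, c.mem x 0 (F * x) ∧ k c = true := by
  obtain ⟨a1, a2, u, a3, a4⟩ := ha
  obtain ⟨r, hr, h⟩ := mulK_sound a2 hX h
  exact ⟨_, ⟨c0_mem, hr, _, a2, by ring⟩, h⟩

theorem invU_sound (ha : a.mem x f F) (h : invU a k = true) :
    ∃ c : Uv, c.mem x (f⁻¹) (F⁻¹) ∧ k c = true ∧ f ≠ 0 ∧ F ≠ 0 := by
  obtain ⟨a1, a2, u, a3, a4⟩ := ha
  obtain ⟨z, hz, h, hf⟩ := invK_sound a1 h
  obtain ⟨r, hr, h, hF⟩ := invK_sound a2 h
  obtain ⟨p, hp, h⟩ := mulK_sound hz hr h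
  obtain ⟨q, hq, h⟩ := mulK_sound a3 hp h
  obtain ⟨d, hd, h⟩ := negK_sound hq h
  refine ⟨_, ⟨hz, hr, _, hd, ?_⟩, h, hf, hF⟩
  have e : u * x = F - f := by rw [a4]; ring
  have e2 : f⁻¹ + -(u * (f⁻¹ * F⁻¹)) * x = f⁻¹ - (u * x) * (f⁻¹ * F⁻¹) := by ring
  rw [e2, e]
  field_simp
  ring

theorem sinU_sound (hX : X.mem x) (ha : a.mem x f F) (h : sinU a X k = true) :
    ∃ c : Uv, c.mem x (Real.sin f) (Real.sin F) ∧ k c = true := by
  obtain ⟨a1, a2, u, a3, a4⟩ := ha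
  obtain ⟨v, hv, h⟩ := mulK_sound a3 hX h
  obtain ⟨w, hw, h⟩ := mulK_sound c12_mem hv h
  obtain ⟨m, hm, h⟩ := addK_sound a1 hw h
  obtain ⟨c, hc, h⟩ := cosK_sound hm h
  obtain ⟨e, he, h⟩ := scI_sound hw h
  obtain ⟨p, hp, h⟩ := mulK_sound hc he h
  obtain ⟨d, hd, h⟩ := mulK_sound a3 hp h
  obtain ⟨z, hz, h⟩ := sinK_sound a1 h
  obtain ⟨r, hr, h⟩ := sinK_sound a2 h
  refine ⟨_, ⟨hz, hr, _, hd, ?_⟩, h⟩
  have e1 : Real.sin F = Real.sin f + 2 * Real.cos (f + 1 / 2 * (u * x)) *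
      Real.sin (1 / 2 * (u * x)) := by
    have e2 : F = (f + 1 / 2 * (u * x)) + 1 / 2 * (u * x) := by rw [a4]; ring
    have e3 : f = (f + 1 / 2 * (u * x)) - 1 / 2 * (u * x) := by ring
    rw [e2]
    conv_rhs => rw [show Real.sin f = Real.sin ((f + 1 / 2 * (u * x)) - 1 / 2 * (u * x)) by
      rw [← e3]]
    rw [Real.sin_add, Real.sin_sub]
    ring
  rw [e1]
  rw [show Real.sin (1 / 2 * (u * x)) = 1 / 2 * (u * x) * Sc (1 / 2 * (u * x)) from sin_eq_Sc _]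
  ring

theorem cosU_sound (hX : X.mem x) (ha : a.mem x f F) (h : cosU a X k = true) :
    ∃ c : Uv, c.mem x (Real.cos f) (Real.cos F) ∧ k c = true := by
  obtain ⟨a1, a2, u, a3, a4⟩ := ha
  obtain ⟨v, hv, h⟩ := mulK_sound a3 hX h
  obtain ⟨w, hw, h⟩ := mulK_sound c12_mem hv h
  obtain ⟨m, hm, h⟩ := addK_sound a1 hw h
  obtain ⟨c, hc, h⟩ := sinK_sound hm h
  obtain ⟨e, he, h⟩ := scI_sound hw h
  obtain ⟨p, hp, h⟩ := mulK_sound hc he h
  obtain ⟨q, hq, h⟩ := mulK_sound a3 hp h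
  obtain ⟨d, hd, h⟩ := negK_sound hq h
  obtain ⟨z, hz, h⟩ := cosK_sound a1 h
  obtain ⟨r, hr, h⟩ := cosK_sound a2 h
  refine ⟨_, ⟨hz, hr, _, hd, ?_⟩, h⟩
  have e1 : Real.cos F = Real.cos f - 2 * Real.sin (f + 1 / 2 * (u * x)) *
      Real.sin (1 / 2 * (u * x)) := by
    have e2 : F = (f + 1 / 2 * (u * x)) + 1 / 2 * (u * x) := by rw [a4]; ring
    have e3 : f = (f + 1 / 2 * (u * x)) - 1 / 2 * (u * x) := by ring
    rw [e2]
    conv_rhs => rw [show Real.cos f = Real.cos ((f + 1 / 2 * (u * x)) - 1 / 2 * (u * x)) by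
      rw [← e3]]
    rw [Real.cos_add, Real.cos_sub]
    ring
  rw [e1]
  rw [show Real.sin (1 / 2 * (u * x)) = 1 / 2 * (u * x) * Sc (1 / 2 * (u * x)) from sin_eq_Sc _]
  ring

theorem scU_sound (hX : X.mem x) (ha : a.mem x f F) (h : scU a X k = true) :
    ∃ c : Uv, c.mem x 1 (Sc (F * x)) ∧ k c = true := by
  obtain ⟨a1, a2, u, a3, a4⟩ := ha
  obtain ⟨v, hv, h⟩ := mulK_sound a2 hX h
  obtain ⟨z, hz, h⟩ := sqK_sound hv h
  obtain ⟨q, hq, h⟩ := sfK_sound hz h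
  obtain ⟨w, hw, h⟩ := mulK_sound hz hq h
  obtain ⟨r, hr, h⟩ := subK_sound c1_mem hw h
  obtain ⟨e, he, h⟩ := mulK_sound a2 hv h
  obtain ⟨p, hp, h⟩ := mulK_sound he hq h
  obtain ⟨d, hd, h⟩ := negK_sound hp h
  refine ⟨_, ⟨c1_mem, hr, _, hd, ?_⟩, h⟩
  unfold Sc
  ring

theorem nonneg_of_test {a : Iv} {v : ℝ} (h : Nat.ble 68719476736 a.lo = true) (ha : a.mem v) :
    0 ≤ v := by
  have h1 : (68719476736 : ℝ) ≤ a.lo := by exact_mod_cast ble_true h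
  have h2 := ha.1
  linarith

theorem pos_of_test {a : Iv} {v : ℝ} (h : Nat.ble 68719476737 a.lo = true) (ha : a.mem v) :
    0 < v := by
  have h1 : (68719476737 : ℝ) ≤ a.lo := by exact_mod_cast ble_true h
  have h2 := ha.1
  linarith

end Pool.Agent.H13.IU
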